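import Pool.Agent.Lib.MP_c8a077_gtP.CA.Def

/-!
# Approximation by polytopes

`frontier (r • L)` is compact (closed subset of the compact `r • L`).  Let `x` be one of its points.  `x ∉ L`: if `z ∈ L` then `r⁻¹ z = r⁻¹ z + (1 - r⁻¹) 0` is in the interior of `L` (`Convex.combo_interior_closure_subset_interior` or similar), so `z ∈ interior (r • L)`
(`interior_smul₀`).  `geometric_hahn_banach_closed_point`: `f`, `u` with `f a < u` on `L`, `u < f x`; `0 ∈ L` so `0 < u`; `f = ⟨·, y₀⟩` (`InnerProductSpace.toDual`), `y = u⁻¹ y₀`: `⟨a,y⟩ ≤ 1` on `L`, `1 < ⟨x,y⟩`.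
The open sets `{w | 1 < ⟨w, y⟩}` cover `frontier (r • L)`: finite subcover `Y` (`IsCompact.elim_finite_subcover`; keep only the `y` of the form above, all nonzero).  `L ⊆ poly Y`, and `poly Y ∩ frontier (r • L) = ∅`.  `poly Y` is convex, so preconnected, and contains `0 ∈ r • L`:
if it contained a point outside `r • L` it would meet `frontier (r • L)` (`IsPreconnected.inter_frontier_nonempty`).
-/

open MeasureTheory Set Metric Topology Filter Module
open scoped ENNReal Pointwise

open Pool.Agent.MP_c8a077_gt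

namespace Pool.Agent.MP_c8a077_gtP.CA

variable {W : Type*} [NormedAddCommGroup W] [InnerProductSpace ℝ W] [FiniteDimensional ℝ W]

private theorem App_sep {L : Set W} (hL : Convex ℝ L) (hLc : IsCompact L) (h0 : (0 : W) ∈ interior L) {r : ℝ}
    (hr : 1 < r) {x : W} (hx : x ∈ frontier (r • L)) :
    ∃ y : W, (∀ a ∈ L, inner ℝ a y ≤ 1) ∧ 1 < inner ℝ x y := by
  have hr0 : 0 < r := by linarith
  have hxL : x ∉ L := by
    intro hxL
    have h1 : (r⁻¹ : ℝ) • x ∈ interior L := by
      have hr1 : r⁻¹ < 1 := inv_lt_one_of_one_lt₀ hr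
      have h2 := hL.combo_interior_self_subset_interior (a := 1 - r⁻¹) (b := r⁻¹) (by linarith) (by positivity)
        (by ring)
      apply h2
      refine ⟨(1 - r⁻¹) • (0 : W), ⟨0, h0, rfl⟩, r⁻¹ • x, ⟨x, hxL, rfl⟩, ?_⟩
      simp
    have h3 : x ∈ interior (r • L) := by
      rw [interior_smul₀ hr0.ne', mem_smul_set_iff_inv_smul_mem₀ hr0.ne']
      exact h1
    exact hx.2 h3
  obtain ⟨f, u, h1, h2⟩ := geometric_hahn_banach_closed_point hL hLc.isClosed hxL
  have hu : 0 < u := by
    have := h1 0 (interior_subset h0)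
    simpa using this
  obtain ⟨y₀, hy₀⟩ : ∃ y₀ : W, ∀ z, f z = inner ℝ z y₀ := by
    refine ⟨(InnerProductSpace.toDual ℝ W).symm f, fun z => ?_⟩
    rw [real_inner_comm, InnerProductSpace.toDual_symm_apply]
  refine ⟨u⁻¹ • y₀, ?_, ?_⟩
  · intro a ha
    rw [inner_smul_right, ← hy₀]
    have h3 := h1 a ha
    rw [inv_mul_le_iff₀ hu]
    linarith
  · rw [inner_smul_right, ← hy₀, lt_inv_mul_iff₀ hu]
    linarith

theorem approx {L : Set W} (hL : Convex ℝ L) (hLc : IsCompact L) (h0 : (0 : W) ∈ interior L) {r : ℝ} (hr : 1 < r) :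
    ∃ Y : Finset W, (∀ y ∈ Y, y ≠ 0) ∧ L ⊆ poly Y ∧ poly Y ⊆ r • L := by
  classical
  have hr0 : 0 < r := by linarith
  have hK : IsCompact (frontier (r • L)) :=
    (hLc.smul r).of_isClosed_subset isClosed_frontier (hLc.smul r).isClosed.frontier_subset
  have hsep : ∀ x : W, ∃ y : W, x ∈ frontier (r • L) → (∀ a ∈ L, inner ℝ a y ≤ 1) ∧ 1 < inner ℝ x y := by
    intro x
    by_cases hx : x ∈ frontier (r • L)
    · obtain ⟨y, hy⟩ := App_sep hL hLc h0 hr hx
      exact ⟨y, fun _ => hy⟩
    · exact ⟨0, fun h => absurd h hx⟩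
  choose g hg using hsep
  obtain ⟨t, ht1, ht2⟩ := hK.elim_nhds_subcover (fun x => {w : W | 1 < inner ℝ w (g x)}) (fun x hx =>
    (isOpen_lt continuous_const (by fun_prop)).mem_nhds (hg x hx).2)
  refine ⟨t.image g, ?_, ?_, ?_⟩
  · intro y hy
    obtain ⟨x, hx, rfl⟩ := Finset.mem_image.1 hy
    intro hz
    have := (hg x (ht1 x hx)).2
    rw [hz, inner_zero_right] at this
    linarith
  · intro a ha y hy
    obtain ⟨x, hx, rfl⟩ := Finset.mem_image.1 hy
    exact (hg x (ht1 x hx)).1 a ha
  · intro z hz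
    by_contra hzL
    have hconv : Convex ℝ (poly (t.image g)) := by
      intro x hx y hy a b ha hb hab w hw
      rw [inner_add_left, inner_smul_left, inner_smul_left]
      simp only [conj_trivial]
      have h1 := hx w hw
      have h2 := hy w hw
      nlinarith
    have h0P : (0 : W) ∈ poly (t.image g) := by
      intro y _
      rw [inner_zero_left]
      exact zero_le_one
    have h0r : (0 : W) ∈ interior (r • L) := by
      rw [interior_smul₀ hr0.ne']
      exact ⟨0, h0, by simp⟩
    have hdisj : ∀ w ∈ poly (t.image g), w ∉ frontier (r • L) := by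
      intro w hw1 hw2
      obtain ⟨x, hx, hwx⟩ := mem_iUnion₂.1 (ht2 hw2)
      have h1 := hw1 (g x) (Finset.mem_image_of_mem g hx)
      have h2 : 1 < inner ℝ w (g x) := hwx
      linarith
    obtain ⟨w, -, hw1, hw2⟩ := hconv.isPreconnected (interior (r • L)) (r • L)ᶜ isOpen_interior
      (hLc.smul r).isClosed.isOpen_compl (fun w hw => by
        by_cases h : w ∈ r • L
        · left
          by_contra h2
          exact hdisj w hw ⟨subset_closure h, h2⟩
        · exact Or.inr h) ⟨0, h0P, h0r⟩ ⟨z, hz, hzL⟩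
    exact hw2 (interior_subset hw1)

end Pool.Agent.MP_c8a077_gtP.CA
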