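import Pool.Agent.Lib.MP_c8a077_gtP.CA.Def

/-!
# The surface area of convex bodies is monotone

For `z : W` let `π z ∈ L` be the nearest point: `⟨z - π z, y - π z⟩ ≤ 0` for `y ∈ L` (`exists_norm_eq_iInf_of_complete_convex`, `norm_eq_iInf_iff_real_inner_le_zero`).  `‖π z - π z'‖ ≤ ‖z - z'‖`: add the two inequalities.
`frontier L ⊆ π '' frontier L'`: let `x ∈ frontier L`; `x ∈ L` is not in the interior, which is open, convex and nonempty: `geometric_hahn_banach_open_point` (and the Riesz representation, or `InnerProductSpace.toDual`) gives `ν ≠ 0` with `⟨y, ν⟩ < ⟨x, ν⟩` on the interior,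
so `⟨y - x, ν⟩ ≤ 0` on `L = closure (interior L)` (`Convex.closure_interior_eq_closure_of_nonempty_interior` or the segment argument).  `{s ≥ 0 | x + s ν ∈ L'}` is nonempty, compact: let `s` be its greatest element, `z = x + s ν ∈ L'`; `z ∉ interior L'`
(otherwise `x + (s + ε) ν ∈ L'`), so `z ∈ frontier L'`; `⟨z - x, y - x⟩ = s ⟨ν, y - x⟩ ≤ 0` for `y ∈ L`, so `π z = x` (uniqueness: add the inequalities for `x` and `π z`).
`LipschitzWith.hausdorffMeasure_image_le` (or `LipschitzOnWith`), `Measure.euclideanHausdorffMeasure_def`.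
-/

open MeasureTheory Set Metric Topology Filter Module
open scoped ENNReal Pointwise

open Pool.Agent.MP_c8a077_gt

namespace Pool.Agent.MP_c8a077_gtP.CA

variable {W : Type*} [NormedAddCommGroup W] [InnerProductSpace ℝ W] [FiniteDimensional ℝ W]

private theorem Mon_proj {L : Set W} (hL : Convex ℝ L) (hLc : IsClosed L) (hne : L.Nonempty) :
    ∃ π : W → W, (∀ z, π z ∈ L) ∧ (∀ z, ∀ y ∈ L, inner ℝ (z - π z) (y - π z) ≤ (0 : ℝ)) := by
  have h : ∀ z : W, ∃ p ∈ L, ∀ y ∈ L, inner ℝ (z - p) (y - p) ≤ (0 : ℝ) := by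
    intro z
    obtain ⟨p, hp, hp2⟩ := exists_norm_eq_iInf_of_complete_convex hne hLc.isComplete hL z
    exact ⟨p, hp, (norm_eq_iInf_iff_real_inner_le_zero hL hp).1 hp2⟩
  choose π h1 h2 using h
  exact ⟨π, h1, h2⟩

private theorem Mon_two {z z' p p' : W} (h1 : inner ℝ (z - p) (p' - p) ≤ (0 : ℝ))
    (h2 : inner ℝ (z' - p') (p - p') ≤ (0 : ℝ)) : ‖p - p'‖ ≤ ‖z - z'‖ := by
  have h3 : ‖p - p'‖ ^ 2 ≤ inner ℝ (z - z') (p - p') := by
    have h4 : inner ℝ (z - z') (p - p') - ‖p - p'‖ ^ 2 = -(inner ℝ (z - p) (p' - p) + inner ℝ (z' - p') (p - p') : ℝ) := by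
      rw [← real_inner_self_eq_norm_sq, ← inner_sub_left]
      have h5 : (p' - p : W) = -(p - p') := by abel
      rw [h5, inner_neg_right, ← sub_eq_neg_add, neg_sub, ← inner_sub_left]
      congr 1
      abel
    linarith
  have h6 : inner ℝ (z - z') (p - p') ≤ ‖z - z'‖ * ‖p - p'‖ := real_inner_le_norm _ _
  rcases (norm_nonneg (p - p')).eq_or_lt with h | h
  · rw [← h]
    exact norm_nonneg _
  · have h7 : ‖p - p'‖ * ‖p - p'‖ ≤ ‖z - z'‖ * ‖p - p'‖ := by
      rw [← sq]
      exact h3.trans h6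
    exact le_of_mul_le_mul_right h7 h

private theorem Mon_support {L : Set W} (hL : Convex ℝ L) (hi : (interior L).Nonempty) {x : W}
    (hx : x ∈ frontier L) : ∃ ν : W, ν ≠ 0 ∧ ∀ y ∈ L, inner ℝ (y - x) ν ≤ (0 : ℝ) := by
  obtain ⟨f, hf⟩ := geometric_hahn_banach_open_point hL.interior isOpen_interior hx.2
  obtain ⟨ν, hν⟩ : ∃ ν : W, ∀ z, f z = inner ℝ z ν := by
    refine ⟨(InnerProductSpace.toDual ℝ W).symm f, fun z => ?_⟩
    rw [real_inner_comm, InnerProductSpace.toDual_symm_apply]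
  refine ⟨ν, ?_, ?_⟩
  · rintro rfl
    obtain ⟨a, ha⟩ := hi
    have := hf a ha
    rw [hν, hν, inner_zero_right, inner_zero_right] at this
    exact lt_irrefl _ this
  · intro y hy
    have h1 : y ∈ closure (interior L) := by
      rw [hL.closure_interior_eq_closure_of_nonempty_interior hi]
      exact subset_closure hy
    have h2 : closure (interior L) ⊆ {y : W | inner ℝ (y - x) ν ≤ (0 : ℝ)} := by
      apply closure_minimal
      · intro a ha
        have := hf a ha
        rw [hν, hν] at this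
        rw [mem_ofPred_eq, inner_sub_left]
        linarith
      · exact isClosed_le (by fun_prop) continuous_const
    exact h2 h1

private theorem Mon_ray {L' : Set W} (hL' : IsCompact L') {x ν : W} (hx : x ∈ L') (hν : ν ≠ 0) :
    ∃ s : ℝ, 0 ≤ s ∧ x + s • ν ∈ frontier L' := by
  have hν0 : 0 < ‖ν‖ := norm_pos_iff.mpr hν
  obtain ⟨R, hR⟩ := hL'.isBounded.exists_norm_le
  have hT : IsCompact {s : ℝ | 0 ≤ s ∧ x + s • ν ∈ L'} := by
    apply Metric.isCompact_of_isClosed_isBounded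
    · have h1 : IsClosed {s : ℝ | x + s • ν ∈ L'} := hL'.isClosed.preimage (by fun_prop)
      exact isClosed_Ici.inter h1
    · refine (Metric.isBounded_Icc (0 : ℝ) ((R + ‖x‖) / ‖ν‖)).subset ?_
      rintro s ⟨hs0, hs⟩
      refine ⟨hs0, ?_⟩
      rw [le_div_iff₀ hν0]
      have h1 := hR _ hs
      have h2 : ‖s • ν‖ ≤ ‖x + s • ν‖ + ‖x‖ := by
        have h3 : s • ν = (x + s • ν) - x := by abel
        calc ‖s • ν‖ = ‖(x + s • ν) - x‖ := by rw [← h3]
          _ ≤ ‖x + s • ν‖ + ‖x‖ := norm_sub_le _ _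
      rw [norm_smul, Real.norm_of_nonneg hs0] at h2
      linarith
  obtain ⟨s, ⟨hs0, hs⟩, hmax⟩ := hT.exists_isGreatest ⟨0, le_rfl, by simpa using hx⟩
  refine ⟨s, hs0, subset_closure hs, fun hint => ?_⟩
  have hc : Tendsto (fun t : ℝ => x + (s + t) • ν) (𝓝[>] 0) (𝓝 (x + s • ν)) := by
    have h1 : Continuous fun t : ℝ => x + (s + t) • ν := by fun_prop
    have h2 := h1.tendsto 0
    simp only [add_zero] at h2
    exact h2.mono_left nhdsWithin_le_nhds
  have h3 : ∀ᶠ t in 𝓝[>] (0 : ℝ), x + (s + t) • ν ∈ L' := hc (mem_interior_iff_mem_nhds.1 hint)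
  obtain ⟨t, ht, ht0⟩ := (h3.and self_mem_nhdsWithin).exists
  have ht0' : 0 < t := ht0
  have h4 := hmax (show s + t ∈ {s : ℝ | 0 ≤ s ∧ x + s • ν ∈ L'} from ⟨by linarith, ht⟩)
  linarith

variable [MeasurableSpace W] [BorelSpace W]

theorem frontier_mono {L L' : Set W} (hL : Convex ℝ L) (hLc : IsClosed L) (hi : (interior L).Nonempty)
    (hL' : IsCompact L') (hsub : L ⊆ L') (d : ℕ) : μHE[d] (frontier L) ≤ μHE[d] (frontier L') := by
  obtain ⟨π, h1, h2⟩ := Mon_proj hL hLc (hi.mono interior_subset)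
  have hlip : LipschitzWith 1 π := by
    apply LipschitzWith.mk_one
    intro z z'
    rw [dist_eq_norm, dist_eq_norm]
    exact Mon_two (h2 z _ (h1 z')) (h2 z' _ (h1 z))
  have hsub2 : frontier L ⊆ π '' frontier L' := by
    intro x hx
    have hxL : x ∈ L := hLc.frontier_subset hx
    obtain ⟨ν, hν, hν2⟩ := Mon_support hL hi hx
    obtain ⟨s, hs, hs2⟩ := Mon_ray hL' (hsub hxL) hν
    refine ⟨x + s • ν, hs2, ?_⟩
    have h3 := h2 (x + s • ν) x hxL
    have h4 : inner ℝ (x + s • ν - x) (π (x + s • ν) - x) ≤ (0 : ℝ) := by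
      rw [add_sub_cancel_left, inner_smul_left, real_inner_comm]
      simp only [conj_trivial]
      exact mul_nonpos_of_nonneg_of_nonpos hs (hν2 _ (h1 _))
    have h5 := Mon_two h3 h4
    rw [sub_self, norm_zero] at h5
    exact sub_eq_zero.1 (norm_eq_zero.1 (le_antisymm h5 (norm_nonneg _)))
  have h6 : μHE[d] (π '' frontier L') ≤ μHE[d] (frontier L') := by
    rw [Measure.euclideanHausdorffMeasure_def, Measure.smul_apply, Measure.smul_apply]
    have h7 := hlip.hausdorffMeasure_image_le (d := d) (by positivity) (frontier L')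
    simp only [ENNReal.coe_one, ENNReal.one_rpow, one_mul] at h7
    rw [ENNReal.smul_def, ENNReal.smul_def, smul_eq_mul, smul_eq_mul]
    exact mul_le_mul_right h7 _
  exact (measure_mono hsub2).trans h6

end Pool.Agent.MP_c8a077_gtP.CA
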