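import Pool.Agent.Lib.MP_c8a077_gtP.CA.Set

/-!
# Scaling and translation

`hmeas_frontier_smul`: `frontier (r • L) = r • frontier L` (`frontier_smul₀` or via the homeomorphism), `Measure.euclideanHausdorffMeasure_smul₀`.
`vol_cyl_smul_le`: `cyl (r • L) v ⊆ r • cyl L v`: if `x + s v ∈ r • L` then `r⁻¹ x + (r⁻¹ s) v ∈ L` and `0 ≤ ⟨r⁻¹ x, v⟩ = r⁻¹ ⟨x,v⟩ ≤ ‖v‖` because `r ≥ 1`; `Measure.addHaar_smul`.
`vol_cyl_translate`: with `c' = c - (⟨c,v⟩/‖v‖²) v`, orthogonal to `v`: `cyl (c +ᵥ L) v = c' +ᵥ cyl L v` (for `v = 0` the vector `c'` is `c` in the Lean conventions, fine); the volume is invariant under translations.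
`hmeas_frontier_translate`: the translation is an isometry (`Isometry.euclideanHausdorffMeasure_image`) and a homeomorphism.
-/

open MeasureTheory Set Metric Topology Filter Module
open scoped ENNReal Pointwise

open Pool.Agent.MP_c8a077_gt

namespace Pool.Agent.MP_c8a077_gtP.CA

variable {W : Type*} [NormedAddCommGroup W] [InnerProductSpace ℝ W] [FiniteDimensional ℝ W]
  [MeasurableSpace W] [BorelSpace W]

theorem hmeas_frontier_smul (d : ℕ) {r : ℝ} (hr : 0 < r) (L : Set W) :
    μHE[d] (frontier (r • L)) = ENNReal.ofReal (r ^ d) * μHE[d] (frontier L) := by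
  have h1 : frontier (r • L) = r • frontier L := by
    rw [frontier, frontier, interior_smul₀ hr.ne', closure_smul₀, smul_set_sdiff₀ hr.ne']
  rw [h1, Measure.euclideanHausdorffMeasure_smul₀ d hr.ne', ENNReal.smul_def, smul_eq_mul]
  congr 1
  rw [ENNReal.coe_pow, ENNReal.ofReal_pow hr.le, ← enorm_eq_nnnorm, ← ofReal_norm, Real.norm_of_nonneg hr.le]

theorem vol_cyl_smul_le {d : ℕ} (hW : finrank ℝ W = d) {r : ℝ} (hr : 1 ≤ r) (L : Set W) (v : W) :
    volume (cyl (r • L) v) ≤ ENNReal.ofReal (r ^ d) * volume (cyl L v) := by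
  have hr0 : 0 < r := by linarith
  have hsub : cyl (r • L) v ⊆ r • cyl L v := by
    rintro x ⟨⟨s, hs⟩, h1, h2⟩
    rw [mem_smul_set_iff_inv_smul_mem₀ hr0.ne'] at hs ⊢
    refine ⟨⟨r⁻¹ * s, ?_⟩, ?_, ?_⟩
    · rw [smul_add, smul_smul] at hs
      exact hs
    · rw [inner_smul_left]
      simp only [conj_trivial]
      positivity
    · rw [inner_smul_left]
      simp only [conj_trivial]
      have h3 : r⁻¹ ≤ 1 := inv_le_one_of_one_le₀ hr
      nlinarith
  refine (measure_mono hsub).trans (le_of_eq ?_)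
  rw [Measure.addHaar_smul, hW, abs_of_nonneg (by positivity)]

theorem vol_cyl_translate (c : W) (L : Set W) (v : W) :
    volume (cyl ((fun x => c + x) '' L) v) = volume (cyl L v) := by
  obtain ⟨c', hc'⟩ : ∃ c' : W, c' = c - (inner ℝ c v / ‖v‖ ^ 2) • v := ⟨_, rfl⟩
  have horth : inner ℝ c' v = (0 : ℝ) := by
    rw [hc', inner_sub_left, inner_smul_left, real_inner_self_eq_norm_sq]
    simp only [conj_trivial]
    by_cases hv : v = 0
    · simp [hv]
    · have : ‖v‖ ^ 2 ≠ 0 := by positivity
      field_simp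
      ring
  have h : cyl ((fun x => c + x) '' L) v = (fun x => c' + x) '' cyl L v := by
    ext x
    simp only [image_add_left, mem_preimage]
    constructor
    · rintro ⟨⟨s, hs⟩, h1, h2⟩
      refine ⟨⟨s - inner ℝ c v / ‖v‖ ^ 2, ?_⟩, ?_, ?_⟩
      · have h3 : -c' + x + (s - inner ℝ c v / ‖v‖ ^ 2) • v = -c + (x + s • v) := by
          rw [hc', sub_smul]
          abel
        rw [h3]
        simpa using hs
      · rw [inner_add_left, inner_neg_left, horth]
        simpa using h1
      · rw [inner_add_left, inner_neg_left, horth]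
        simpa using h2
    · rintro ⟨⟨s, hs⟩, h1, h2⟩
      rw [inner_add_left, inner_neg_left, horth] at h1 h2
      refine ⟨⟨s + inner ℝ c v / ‖v‖ ^ 2, ?_⟩, by simpa using h1, by simpa using h2⟩
      have h3 : -c + (x + (s + inner ℝ c v / ‖v‖ ^ 2) • v) = -c' + x + s • v := by
        rw [hc', add_smul]
        abel
      simp only [mem_preimage]
      rw [h3]
      exact hs
  rw [h, image_add_left, measure_preimage_add]

omit [InnerProductSpace ℝ W] [FiniteDimensional ℝ W] in
theorem hmeas_frontier_translate (d : ℕ) (c : W) (L : Set W) :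
    μHE[d] (frontier ((fun x => c + x) '' L)) = μHE[d] (frontier L) := by
  have h1 : frontier ((fun x => c + x) '' L) = (fun x => c + x) '' frontier L :=
    ((Homeomorph.addLeft c).image_frontier L).symm
  rw [h1]
  exact (isometry_add_left c).euclideanHausdorffMeasure_image _

end Pool.Agent.MP_c8a077_gtP.CA
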