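import Pool.Agent.Lib.MP_c8a077_gtP.CA.Pol
import Pool.Agent.Lib.MP_c8a077_gtP.CA.Mon
import Pool.Agent.Lib.MP_c8a077_gtP.CA.App
import Pool.Agent.Lib.MP_c8a077_gtP.CA.Sca

/-!
# Cauchy's surface area formula

`F₁(L) = μHE[k+1] (frontier L)`, `F₂(L) = cau k * ∫ gam v * volume (cyl L v)`.  Translate so that `0 ∈ interior L`.  For `r > 1`, `approx`: `L ⊆ P ⊆ r L`.  `F₁(L) ≤ F₁(P) = F₂(P) ≤ F₂(r L) ≤ r^(k+2) F₂(L)` and `F₂(L) ≤ F₂(P) = F₁(P) ≤ F₁(r L) = r^(k+1) F₁(L)`; `r → 1`
(`le_of_tendsto'` or: if `a ≤ ofReal (r^n) * b` for all `r > 1` then `a ≤ b`).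
-/

open MeasureTheory Set Metric Topology Filter Module
open scoped ENNReal Pointwise

open Pool.Agent.MP_c8a077_gt

namespace Pool.Agent.MP_c8a077_gtP.CA

variable {W : Type*} [NormedAddCommGroup W] [InnerProductSpace ℝ W] [FiniteDimensional ℝ W]
  [MeasurableSpace W] [BorelSpace W]

private theorem Cau_lim {a b : ℝ≥0∞} (n : ℕ) (h : ∀ r : ℝ, 1 < r → a ≤ ENNReal.ofReal (r ^ n) * b) : a ≤ b := by
  by_cases hb : b = ∞
  · rw [hb]; exact le_top
  have h1 : Tendsto (fun r : ℝ => ENNReal.ofReal (r ^ n) * b) (𝓝[>] 1) (𝓝 (ENNReal.ofReal (1 ^ n) * b)) := by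
    apply ENNReal.Tendsto.mul_const
    · apply ENNReal.tendsto_ofReal
      exact ((continuous_pow n).tendsto 1).mono_left nhdsWithin_le_nhds
    · right; exact hb
  rw [one_pow, ENNReal.ofReal_one, one_mul] at h1
  exact ge_of_tendsto h1 (eventually_mem_nhdsWithin.mono fun r hr => h r hr)

private theorem Cau_F2_mono {A B : Set W} (h : A ⊆ B) :
    ∫⁻ v : W, gam v * volume (cyl A v) ≤ ∫⁻ v : W, gam v * volume (cyl B v) :=
  lintegral_mono fun v => mul_le_mul_right (measure_mono (cyl_mono h v)) _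

private theorem Cau_zero {k : ℕ} (hW : finrank ℝ W = k + 2) {L : Set W} (hL : Convex ℝ L) (hLc : IsCompact L)
    (h0 : (0 : W) ∈ interior L) :
    μHE[k + 1] (frontier L) = cau k * ∫⁻ v : W, gam v * volume (cyl L v) := by
  have hcomp : ∀ r : ℝ, IsCompact (r • L) := fun r => hLc.smul r
  have hpoly : ∀ {r : ℝ}, 1 < r → ∃ Y : Finset W, (∀ y ∈ Y, y ≠ 0) ∧ L ⊆ poly Y ∧ poly Y ⊆ r • L ∧
      μHE[k + 1] (frontier (poly Y)) = cau k * ∫⁻ v : W, gam v * volume (cyl (poly Y) v) := by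
    intro r hr
    obtain ⟨Y, hY, h1, h2⟩ := approx hL hLc h0 hr
    exact ⟨Y, hY, h1, h2, cauchy_poly hW hY ((hcomp r).isBounded.subset h2)⟩
  have hconv : ∀ Y : Finset W, Convex ℝ (poly Y) := by
    intro Y x hx y hy a b ha hb hab z hz
    rw [inner_add_left, inner_smul_left, inner_smul_left]
    simp only [conj_trivial]
    have h1 := hx z hz
    have h2 := hy z hz
    nlinarith
  apply le_antisymm
  · apply Cau_lim (k + 2)
    intro r hr
    obtain ⟨Y, hY, h1, h2, h3⟩ := hpoly hr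
    have hPc : IsCompact (poly Y) := (hcomp r).of_isClosed_subset (isClosed_poly Y) h2
    calc μHE[k + 1] (frontier L) ≤ μHE[k + 1] (frontier (poly Y)) :=
          frontier_mono hL hLc.isClosed ⟨0, h0⟩ hPc h1 _
      _ = cau k * ∫⁻ v : W, gam v * volume (cyl (poly Y) v) := h3
      _ ≤ cau k * ∫⁻ v : W, gam v * volume (cyl (r • L) v) := mul_le_mul_right (Cau_F2_mono h2) _
      _ ≤ cau k * ∫⁻ v : W, ENNReal.ofReal (r ^ (k + 2)) * (gam v * volume (cyl L v)) := by
          refine mul_le_mul_right (lintegral_mono fun v => ?_) _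
          calc gam v * volume (cyl (r • L) v) ≤ gam v * (ENNReal.ofReal (r ^ (k + 2)) * volume (cyl L v)) :=
                mul_le_mul_right (vol_cyl_smul_le hW hr.le L v) _
            _ = ENNReal.ofReal (r ^ (k + 2)) * (gam v * volume (cyl L v)) := by ring
      _ = ENNReal.ofReal (r ^ (k + 2)) * (cau k * ∫⁻ v : W, gam v * volume (cyl L v)) := by
          rw [lintegral_const_mul' _ _ ENNReal.ofReal_ne_top]
          ring
  · apply Cau_lim (k + 1)
    intro r hr
    obtain ⟨Y, hY, h1, h2, h3⟩ := hpoly hr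
    calc cau k * ∫⁻ v : W, gam v * volume (cyl L v) ≤ cau k * ∫⁻ v : W, gam v * volume (cyl (poly Y) v) :=
          mul_le_mul_right (Cau_F2_mono h1) _
      _ = μHE[k + 1] (frontier (poly Y)) := h3.symm
      _ ≤ μHE[k + 1] (frontier (r • L)) :=
          frontier_mono (hconv Y) (isClosed_poly Y) ⟨0, interior_mono h1 h0⟩ (hcomp r) h2 _
      _ = ENNReal.ofReal (r ^ (k + 1)) * μHE[k + 1] (frontier L) :=
          hmeas_frontier_smul (k + 1) (by linarith) L

theorem cauchy {k : ℕ} (hW : finrank ℝ W = k + 2) {L : Set W} (hL : Convex ℝ L) (hLc : IsCompact L)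
    (hi : (interior L).Nonempty) :
    μHE[k + 1] (frontier L) = cau k * ∫⁻ v : W, gam v * volume (cyl L v) := by
  obtain ⟨c, hc⟩ := hi
  have h1 : (0 : W) ∈ interior ((fun x => -c + x) '' L) := by
    have h2 : (fun x => -c + x) '' interior L = interior ((fun x => -c + x) '' L) :=
      (Homeomorph.addLeft (-c)).image_interior L
    rw [← h2]
    exact ⟨c, hc, by simp⟩
  have h3 := Cau_zero hW (L := (fun x => -c + x) '' L) ?_ (hLc.image (by fun_prop)) h1
  · rw [hmeas_frontier_translate] at h3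
    rw [h3]
    congr 1
    exact lintegral_congr fun v => by rw [vol_cyl_translate]
  · have := hL.translate (-c)
    exact this

end Pool.Agent.MP_c8a077_gtP.CA
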