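import Pool.Agent.Lib.MP_c8a077_gtP.CA.Def

/-!
# Fubini along a unit vector

`S = ℝ ∙ e`.  `S.orthogonalDecomposition : W ≃ₗᵢ WithLp 2 (S × Sᗮ)` is measure preserving, `WithLp.volume_preserving_toLp S Sᗮ`, `LinearIsometryEquiv.toSpanUnitSingleton e he : ℝ ≃ₗᵢ S`; composition: `(t, w) ↦ w + t • e`
preserves the measure `ℝ × Sᗮ → W`.
-/

open MeasureTheory Set Metric Topology Filter Module
open scoped ENNReal

open Pool.Agent.MP_c8a077_gt

namespace Pool.Agent.MP_c8a077_gtP.CA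

variable {W : Type*} [NormedAddCommGroup W] [InnerProductSpace ℝ W] [FiniteDimensional ℝ W]
  [MeasurableSpace W] [BorelSpace W]

theorem mp_dec {e : W} (he : ‖e‖ = 1) :
    MeasurePreserving (fun p : ℝ × (ℝ ∙ e)ᗮ => (p.2 : W) + p.1 • e) (volume.prod volume) volume := by
  have h1 : MeasurePreserving (fun p : (ℝ ∙ e) × (ℝ ∙ e)ᗮ => (WithLp.toLp 2 p : WithLp 2 ((ℝ ∙ e) × (ℝ ∙ e)ᗮ)))
      (volume.prod volume) volume := WithLp.volume_preserving_toLp (ℝ ∙ e) (ℝ ∙ e)ᗮ
  have h2 := ((ℝ ∙ e).orthogonalDecomposition.symm.measurePreserving).comp h1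
  have h3a : MeasurePreserving (LinearIsometryEquiv.toSpanUnitSingleton e he : ℝ → (ℝ ∙ e)) volume volume :=
    (LinearIsometryEquiv.toSpanUnitSingleton e he).measurePreserving
  have h3b : MeasurePreserving (id : (ℝ ∙ e)ᗮ → (ℝ ∙ e)ᗮ) volume volume := MeasurePreserving.id _
  have h3 := h3a.prod h3b
  have h4 := h2.comp h3
  refine (congrArg (fun f => MeasurePreserving f (volume.prod volume) volume) ?_).mp h4
  funext p
  simp [add_comm]

theorem lintegral_dec {e : W} (he : ‖e‖ = 1) {f : W → ℝ≥0∞} (hf : Measurable f) :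
    ∫⁻ x, f x = ∫⁻ t : ℝ, ∫⁻ w : (ℝ ∙ e)ᗮ, f ((w : W) + t • e) := by
  rw [← (mp_dec he).lintegral_comp hf, lintegral_prod]
  exact (hf.comp (mp_dec he).measurable).aemeasurable

theorem lintegral_dec' {e : W} (he : ‖e‖ = 1) {f : W → ℝ≥0∞} (hf : Measurable f) :
    ∫⁻ x, f x = ∫⁻ w : (ℝ ∙ e)ᗮ, ∫⁻ t : ℝ, f ((w : W) + t • e) := by
  rw [← (mp_dec he).lintegral_comp hf, lintegral_prod_symm]
  exact (hf.comp (mp_dec he).measurable).aemeasurable

theorem vol_dec {e : W} (he : ‖e‖ = 1) {A : Set W} (hA : MeasurableSet A) :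
    volume A = ∫⁻ t : ℝ, volume {w : (ℝ ∙ e)ᗮ | (w : W) + t • e ∈ A} := by
  have h1 := lintegral_dec he (measurable_one.indicator hA : Measurable (A.indicator (1 : W → ℝ≥0∞)))
  rw [lintegral_indicator_one hA] at h1
  rw [h1]
  apply lintegral_congr
  intro t
  have hm : Measurable fun w : (ℝ ∙ e)ᗮ => (w : W) + t • e := by fun_prop
  exact lintegral_indicator_one (hm hA)

theorem vol_dec' {e : W} (he : ‖e‖ = 1) {A : Set W} (hA : MeasurableSet A) :
    volume A = ∫⁻ w : (ℝ ∙ e)ᗮ, volume {t : ℝ | (w : W) + t • e ∈ A} := by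
  have h1 := lintegral_dec' he (measurable_one.indicator hA : Measurable (A.indicator (1 : W → ℝ≥0∞)))
  rw [lintegral_indicator_one hA] at h1
  rw [h1]
  apply lintegral_congr
  intro w
  have hm : Measurable fun t : ℝ => (w : W) + t • e := by fun_prop
  exact lintegral_indicator_one (hm hA)

end Pool.Agent.MP_c8a077_gtP.CA
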