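import Pool.Agent.Lib.MP_c8a077_gt.Defs

/-!
# Cauchy's surface area formula: definitions

`cyl A v`: the part of the cylinder `A + ℝ v` in the slab `0 ≤ ⟨x,v⟩ ≤ ‖v‖` of width `1`; its volume is the volume of the projection of `A` along `v`.
`poly Y`: the polyhedron `⟨x,y⟩ ≤ 1`, `y ∈ Y`; `fac Y y`: its part in the hyperplane `⟨x,y⟩ = 1`.  `gam`: the Gaussian weight.
-/

open MeasureTheory Set Metric Topology Filter Module
open scoped ENNReal

open Pool.Agent.MP_c8a077_gt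

namespace Pool.Agent.MP_c8a077_gtP.CA

noncomputable section

/-- The part of the cylinder `A + ℝ v` with `0 ≤ ⟨x,v⟩ ≤ ‖v‖`. -/
def cyl {W : Type*} [NormedAddCommGroup W] [InnerProductSpace ℝ W] (A : Set W) (v : W) : Set W :=
  {x | (∃ s : ℝ, x + s • v ∈ A) ∧ 0 ≤ inner ℝ x v ∧ inner ℝ x v ≤ ‖v‖}

/-- The Gaussian weight. -/
def gam {W : Type*} [NormedAddCommGroup W] (v : W) : ℝ≥0∞ := ENNReal.ofReal (Real.exp (-‖v‖ ^ 2 / 2))

/-- The polyhedron `⟨x,y⟩ ≤ 1`, `y ∈ Y`. -/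
def poly {W : Type*} [NormedAddCommGroup W] [InnerProductSpace ℝ W] (Y : Finset W) : Set W :=
  {x | ∀ y ∈ Y, inner ℝ x y ≤ 1}

/-- The part of the polyhedron in the hyperplane `⟨x,y⟩ = 1`. -/
def fac {W : Type*} [NormedAddCommGroup W] [InnerProductSpace ℝ W] (Y : Finset W) (y : W) : Set W :=
  {x | x ∈ poly Y ∧ inner ℝ x y = 1}

/-- The constant of Cauchy's formula in dimension `k + 2`, up to a factor. -/
def kap (k : ℕ) : ℝ≥0∞ := ∫⁻ v : E (k + 2), gam v * ENNReal.ofReal (|v 0| / ‖v‖)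

/-- The constant of Cauchy's formula in dimension `k + 2`. -/
def cau (k : ℕ) : ℝ≥0∞ := 2 / kap k

end

end Pool.Agent.MP_c8a077_gtP.CA
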