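import Pool.Agent.Lib.MP_c8a077_gtP.CA.Set

/-!
# The projection of a compact subset of a hyperplane

`f` a unit vector, `A ⊆ {⟨x,f⟩ = c}` compact.
`hmeas_hyper`: `w ↦ w + c f` is an isometry of `(ℝ f)ᗮ` (dimension `k+1`: `Submodule.finrank_orthogonal_span_singleton`, with a `Fact`) into `W`, `A` is the image of its preimage (`x ∈ A`: `x - c f` is orthogonal to `f`), `Isometry.euclideanHausdorffMeasure_image`,
`InnerProductSpace.euclideanHausdorffMeasure_eq_volume`.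
`vol_cyl_line`: `vol_dec'` with `e = ‖v‖⁻¹ v`: for `w` orthogonal to `e`, `{t | w + t e ∈ cyl A v}` is `Icc 0 1` if the line `w + ℝ v` meets `A`, and empty otherwise.
`Z = {x | ∃ t ∈ Icc 0 1, x - t v ∈ A}` (compact).  `vol_slant_v` (`⟨f,v⟩ ≠ 0`): `vol_dec'` with `e`: if `w + s v ∈ A` (`s` is unique since `⟨w + s v, f⟩ = c`), `{τ | w + τ e ∈ Z} = Icc (‖v‖ s) (‖v‖ (s+1))`.
`vol_slant_f`: `vol_dec` with `f`: for `τ` put `t = (τ - c)/⟨f,v⟩`; `{w | w + τ f ∈ Z}` is empty if `t ∉ Icc 0 1` and otherwise it is `{w | (w - t v') + c f ∈ A}`, `v' = v - ⟨f,v⟩ f`, a translate of `{w | w + c f ∈ A}`;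
the `τ` with `t ∈ Icc 0 1` are an interval of length `|⟨f,v⟩|`.
`vol_cyl_hyper`: if `⟨f,v⟩ = 0` the cylinder is in the hyperplane (`hyper_null`); otherwise combine.
-/

open MeasureTheory Set Metric Topology Filter Module
open scoped ENNReal Pointwise

open Pool.Agent.MP_c8a077_gt

namespace Pool.Agent.MP_c8a077_gtP.CA

variable {W : Type*} [NormedAddCommGroup W] [InnerProductSpace ℝ W] [FiniteDimensional ℝ W]
  [MeasurableSpace W] [BorelSpace W]

theorem hmeas_hyper {k : ℕ} (hW : finrank ℝ W = k + 2) {f : W} (hf : ‖f‖ = 1) {c : ℝ} {A : Set W}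
    (hA : ∀ x ∈ A, inner ℝ x f = c) : μHE[k + 1] A = volume {w : (ℝ ∙ f)ᗮ | (w : W) + c • f ∈ A} := by
  have hf0 : f ≠ 0 := by
    rintro rfl
    simp at hf
  have hfin : finrank ℝ (ℝ ∙ f)ᗮ = k + 1 := by
    have : Fact (finrank ℝ W = (k + 1) + 1) := ⟨by omega⟩
    exact Submodule.finrank_orthogonal_span_singleton hf0
  have hvol : (μHE[k + 1] : Measure (ℝ ∙ f)ᗮ) = volume := by
    rw [← hfin]
    exact InnerProductSpace.euclideanHausdorffMeasure_eq_volume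
  have hiso : Isometry (fun w : (ℝ ∙ f)ᗮ => (w : W) + c • f) :=
    (isometry_add_right (c • f)).comp isometry_subtype_coe
  have himg : (fun w : (ℝ ∙ f)ᗮ => (w : W) + c • f) '' {w : (ℝ ∙ f)ᗮ | (w : W) + c • f ∈ A} = A := by
    ext x
    constructor
    · rintro ⟨w, hw, rfl⟩
      exact hw
    · intro hx
      have hmem : x - c • f ∈ (ℝ ∙ f)ᗮ := by
        rw [Submodule.mem_orthogonal_singleton_iff_inner_left, inner_sub_left, inner_smul_left, hA x hx,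
          real_inner_self_eq_norm_sq, hf]
        simp
      refine ⟨⟨x - c • f, hmem⟩, ?_, ?_⟩
      · rw [mem_ofPred_eq]
        simpa using hx
      · simp
  calc μHE[k + 1] A = μHE[k + 1] ((fun w : (ℝ ∙ f)ᗮ => (w : W) + c • f) '' {w : (ℝ ∙ f)ᗮ | (w : W) + c • f ∈ A}) := by
        rw [himg]
    _ = μHE[k + 1] {w : (ℝ ∙ f)ᗮ | (w : W) + c • f ∈ A} := hiso.euclideanHausdorffMeasure_image _
    _ = volume {w : (ℝ ∙ f)ᗮ | (w : W) + c • f ∈ A} := by rw [hvol]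

omit [FiniteDimensional ℝ W] [MeasurableSpace W] [BorelSpace W] in
private theorem Fac_e {v : W} (hv : v ≠ 0) : ‖(‖v‖⁻¹ • v)‖ = 1 ∧ ‖v‖ • (‖v‖⁻¹ • v) = v ∧
    ∀ w : (ℝ ∙ (‖v‖⁻¹ • v))ᗮ, inner ℝ (w : W) v = (0 : ℝ) := by
  have hv0 : 0 < ‖v‖ := norm_pos_iff.mpr hv
  have h2 : ‖v‖ • (‖v‖⁻¹ • v) = v := by rw [smul_smul, mul_inv_cancel₀ hv0.ne', one_smul]
  refine ⟨by rw [norm_smul, norm_inv, norm_norm, inv_mul_cancel₀ hv0.ne'], h2, fun w => ?_⟩
  have h3 := Submodule.mem_orthogonal_singleton_iff_inner_left.1 w.2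
  have h4 : inner ℝ (w : W) v = inner ℝ (w : W) (‖v‖ • (‖v‖⁻¹ • v)) := congrArg (fun z => inner ℝ (w : W) z) h2.symm
  rw [h4, inner_smul_right, h3, mul_zero]

private theorem Fac_meas {v : W} {A : Set W} (hA : IsCompact A) (e : W) :
    MeasurableSet {w : (ℝ ∙ e)ᗮ | ∃ s : ℝ, (w : W) + s • v ∈ A} := by
  have h1 : IsClosed {w : (ℝ ∙ e)ᗮ | ∃ s : ℝ, (w : W) + s • v ∈ A} :=
    (isClosed_line hA v).preimage continuous_subtype_val
  exact h1.measurableSet

theorem vol_cyl_line {v : W} (hv : v ≠ 0) {A : Set W} (hA : IsCompact A) :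
    volume (cyl A v) = volume {w : (ℝ ∙ (‖v‖⁻¹ • v))ᗮ | ∃ s : ℝ, (w : W) + s • v ∈ A} := by
  obtain ⟨he, hve, horth⟩ := Fac_e hv
  have hv0 : 0 < ‖v‖ := norm_pos_iff.mpr hv
  rw [vol_dec' he (isClosed_cyl hA v).measurableSet, ← lintegral_indicator_one (Fac_meas hA _)]
  apply lintegral_congr
  intro w
  have hin : ∀ t : ℝ, inner ℝ ((w : W) + t • (‖v‖⁻¹ • v)) v = t * ‖v‖ := by
    intro t
    rw [inner_add_left, horth w, inner_smul_left, inner_smul_left, real_inner_self_eq_norm_sq]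
    simp only [conj_trivial]
    field_simp
    ring
  have hline : ∀ t s : ℝ, (w : W) + t • (‖v‖⁻¹ • v) + s • v = (w : W) + (t * ‖v‖⁻¹ + s) • v := by
    intro t s
    rw [smul_smul, add_smul]
    abel
  by_cases hP : ∃ s : ℝ, (w : W) + s • v ∈ A
  · have h1 : {t : ℝ | (w : W) + t • (‖v‖⁻¹ • v) ∈ cyl A v} = Icc 0 1 := by
      ext t
      constructor
      · rintro ⟨-, h1, h2⟩
        rw [hin] at h1 h2
        constructor
        · by_contra h
          push Not at h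
          have := mul_neg_of_neg_of_pos h hv0
          linarith
        · by_contra h
          push Not at h
          have : 1 * ‖v‖ < t * ‖v‖ := mul_lt_mul_of_pos_right h hv0
          linarith
      · rintro ⟨h1, h2⟩
        obtain ⟨s, hs⟩ := hP
        refine ⟨⟨s - t * ‖v‖⁻¹, ?_⟩, ?_, ?_⟩
        · rw [hline]
          simpa using hs
        · rw [hin]
          positivity
        · rw [hin]
          nlinarith
    rw [h1, Real.volume_Icc, indicator_of_mem (show w ∈ {w : (ℝ ∙ (‖v‖⁻¹ • v))ᗮ | ∃ s : ℝ, (w : W) + s • v ∈ A} from hP)]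
    simp
  · have h1 : {t : ℝ | (w : W) + t • (‖v‖⁻¹ • v) ∈ cyl A v} = ∅ := by
      rw [eq_empty_iff_forall_notMem]
      rintro t ⟨⟨s, hs⟩, -⟩
      rw [hline] at hs
      exact hP ⟨_, hs⟩
    rw [h1, measure_empty, indicator_of_notMem (show w ∉ {w : (ℝ ∙ (‖v‖⁻¹ • v))ᗮ | ∃ s : ℝ, (w : W) + s • v ∈ A} from hP)]

omit [FiniteDimensional ℝ W] in
private theorem Fac_slant {v : W} {A : Set W} (hA : IsCompact A) :
    MeasurableSet {x : W | ∃ t ∈ Icc (0 : ℝ) 1, x - t • v ∈ A} := by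
  have h : {x : W | ∃ t ∈ Icc (0 : ℝ) 1, x - t • v ∈ A} = (fun p : ℝ × W => p.2 + p.1 • v) '' (Icc (0 : ℝ) 1 ×ˢ A) := by
    ext x
    constructor
    · rintro ⟨t, ht, hx⟩
      exact ⟨(t, x - t • v), ⟨ht, hx⟩, by simp⟩
    · rintro ⟨⟨t, a⟩, ⟨ht, ha⟩, rfl⟩
      exact ⟨t, ht, by simpa using ha⟩
  rw [h]
  exact ((isCompact_Icc.prod hA).image (by fun_prop)).measurableSet

theorem vol_slant_v {f v : W} (hfv : inner ℝ f v ≠ (0 : ℝ)) {c : ℝ} {A : Set W} (hA : IsCompact A)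
    (hAf : ∀ x ∈ A, inner ℝ x f = c) :
    volume {x : W | ∃ t ∈ Icc (0 : ℝ) 1, x - t • v ∈ A} =
      ENNReal.ofReal ‖v‖ * volume {w : (ℝ ∙ (‖v‖⁻¹ • v))ᗮ | ∃ s : ℝ, (w : W) + s • v ∈ A} := by
  have hv : v ≠ 0 := by
    rintro rfl
    simp at hfv
  obtain ⟨he, hve, horth⟩ := Fac_e hv
  have hv0 : 0 < ‖v‖ := norm_pos_iff.mpr hv
  rw [vol_dec' he (Fac_slant hA), ← lintegral_indicator_one (Fac_meas hA _), ← lintegral_const_mul' _ _ ENNReal.ofReal_ne_top]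
  apply lintegral_congr
  intro w
  have hline : ∀ t s : ℝ, (w : W) + t • (‖v‖⁻¹ • v) - s • v = (w : W) + (t * ‖v‖⁻¹ - s) • v := by
    intro t s
    rw [smul_smul, sub_smul]
    abel
  by_cases hP : ∃ s : ℝ, (w : W) + s • v ∈ A
  · obtain ⟨s, hs⟩ := hP
    have huniq : ∀ r : ℝ, (w : W) + r • v ∈ A → r = s := by
      intro r hr
      have h1 := hAf _ hr
      have h2 := hAf _ hs
      rw [inner_add_left, inner_smul_left] at h1 h2
      simp only [conj_trivial] at h1 h2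
      have h3 : (r - s) * inner ℝ v f = 0 := by linarith
      rcases mul_eq_zero.1 h3 with h | h
      · linarith
      · rw [real_inner_comm] at h
        exact absurd h hfv
    have h1 : {τ : ℝ | (w : W) + τ • (‖v‖⁻¹ • v) ∈ {x : W | ∃ t ∈ Icc (0 : ℝ) 1, x - t • v ∈ A}} =
        Icc (‖v‖ * s) (‖v‖ * (s + 1)) := by
      ext τ
      constructor
      · rintro ⟨t, ⟨ht0, ht1⟩, ht⟩
        rw [hline] at ht
        have h2 := huniq _ ht
        have h3 : τ = ‖v‖ * (s + t) := by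
          have h4 : τ * ‖v‖⁻¹ = s + t := by linarith
          rw [← h4]
          field_simp
        rw [h3]
        constructor
        · exact mul_le_mul_of_nonneg_left (by linarith) hv0.le
        · exact mul_le_mul_of_nonneg_left (by linarith) hv0.le
      · rintro ⟨h2, h3⟩
        have h4 : s ≤ τ * ‖v‖⁻¹ := by
          rw [← div_eq_mul_inv, le_div_iff₀ hv0]
          linarith
        have h5 : τ * ‖v‖⁻¹ ≤ s + 1 := by
          rw [← div_eq_mul_inv, div_le_iff₀ hv0]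
          linarith
        refine ⟨τ * ‖v‖⁻¹ - s, ⟨by linarith, by linarith⟩, ?_⟩
        rw [hline]
        simpa using hs
    rw [h1, Real.volume_Icc, indicator_of_mem (show w ∈ {w : (ℝ ∙ (‖v‖⁻¹ • v))ᗮ | ∃ s : ℝ, (w : W) + s • v ∈ A} from ⟨s, hs⟩)]
    rw [Pi.one_apply, mul_one]
    congr 1
    ring
  · have h1 : {τ : ℝ | (w : W) + τ • (‖v‖⁻¹ • v) ∈ {x : W | ∃ t ∈ Icc (0 : ℝ) 1, x - t • v ∈ A}} = ∅ := by
      rw [eq_empty_iff_forall_notMem]
      rintro τ ⟨t, -, ht⟩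
      rw [hline] at ht
      exact hP ⟨_, ht⟩
    rw [h1, measure_empty, indicator_of_notMem (show w ∉ {w : (ℝ ∙ (‖v‖⁻¹ • v))ᗮ | ∃ s : ℝ, (w : W) + s • v ∈ A} from hP), mul_zero]

private theorem Fac_len (c : ℝ) {m : ℝ} (hm : m ≠ 0) :
    volume {τ : ℝ | (τ - c) / m ∈ Icc (0 : ℝ) 1} = ENNReal.ofReal |m| := by
  rcases lt_or_gt_of_ne hm with h | h
  · have h1 : {τ : ℝ | (τ - c) / m ∈ Icc (0 : ℝ) 1} = Icc (c + m) c := by
      ext τ
      rw [mem_ofPred_eq, mem_Icc, mem_Icc, le_div_iff_of_neg h, div_le_iff_of_neg h]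
      constructor
      · rintro ⟨h2, h3⟩
        constructor <;> linarith
      · rintro ⟨h2, h3⟩
        constructor <;> linarith
    rw [h1, Real.volume_Icc, abs_of_neg h]
    congr 1
    ring
  · have h1 : {τ : ℝ | (τ - c) / m ∈ Icc (0 : ℝ) 1} = Icc c (c + m) := by
      ext τ
      rw [mem_ofPred_eq, mem_Icc, mem_Icc, le_div_iff₀ h, div_le_iff₀ h]
      constructor
      · rintro ⟨h2, h3⟩
        constructor <;> linarith
      · rintro ⟨h2, h3⟩
        constructor <;> linarith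
    rw [h1, Real.volume_Icc, abs_of_pos h]
    congr 1
    ring

theorem vol_slant_f {f v : W} (hf : ‖f‖ = 1) (hfv : inner ℝ f v ≠ (0 : ℝ)) {c : ℝ} {A : Set W} (hA : IsCompact A)
    (hAf : ∀ x ∈ A, inner ℝ x f = c) :
    volume {x : W | ∃ t ∈ Icc (0 : ℝ) 1, x - t • v ∈ A} =
      ENNReal.ofReal |inner ℝ f v| * volume {w : (ℝ ∙ f)ᗮ | (w : W) + c • f ∈ A} := by
  obtain ⟨m, hm⟩ : ∃ m : ℝ, m = inner ℝ f v := ⟨_, rfl⟩
  rw [← hm] at hfv ⊢
  have hff : inner ℝ f f = (1 : ℝ) := by rw [real_inner_self_eq_norm_sq, hf, one_pow]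
  have hv' : v - m • f ∈ (ℝ ∙ f)ᗮ := by
    rw [Submodule.mem_orthogonal_singleton_iff_inner_left, inner_sub_left, inner_smul_left, hff, real_inner_comm, ← hm]
    simp
  have hmeasT : MeasurableSet {τ : ℝ | (τ - c) / m ∈ Icc (0 : ℝ) 1} := by
    have h1 : Continuous fun τ : ℝ => (τ - c) / m := by fun_prop
    exact (isClosed_Icc.preimage h1).measurableSet
  have hR : ENNReal.ofReal |m| * volume {w : (ℝ ∙ f)ᗮ | (w : W) + c • f ∈ A} =
      ∫⁻ τ, ({τ : ℝ | (τ - c) / m ∈ Icc (0 : ℝ) 1}.indicator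
        (fun _ => volume {w : (ℝ ∙ f)ᗮ | (w : W) + c • f ∈ A})) τ := by
    rw [lintegral_indicator_const hmeasT, Fac_len c hfv, mul_comm]
  rw [vol_dec hf (Fac_slant hA), hR]
  apply lintegral_congr
  intro τ
  have horth : ∀ w : (ℝ ∙ f)ᗮ, inner ℝ (w : W) f = (0 : ℝ) := fun w =>
    Submodule.mem_orthogonal_singleton_iff_inner_left.1 w.2
  have huniq : ∀ (w : (ℝ ∙ f)ᗮ) (t : ℝ), (w : W) + τ • f - t • v ∈ A → t = (τ - c) / m := by
    intro w t ht
    have h1 := hAf _ ht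
    rw [inner_sub_left, inner_add_left, horth w, inner_smul_left, inner_smul_left, hff, real_inner_comm, ← hm] at h1
    simp only [conj_trivial] at h1
    rw [eq_div_iff hfv]
    linarith
  by_cases hT : (τ - c) / m ∈ Icc (0 : ℝ) 1
  · rw [indicator_of_mem (show τ ∈ {τ : ℝ | (τ - c) / m ∈ Icc (0 : ℝ) 1} from hT)]
    have h1 : {w : (ℝ ∙ f)ᗮ | (w : W) + τ • f ∈ {x : W | ∃ t ∈ Icc (0 : ℝ) 1, x - t • v ∈ A}} =
        (fun w : (ℝ ∙ f)ᗮ => w + (-((τ - c) / m)) • (⟨v - m • f, hv'⟩ : (ℝ ∙ f)ᗮ)) ⁻¹' {w : (ℝ ∙ f)ᗮ | (w : W) + c • f ∈ A} := by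
      ext w
      have h2 : (w : W) + τ • f - ((τ - c) / m) • v =
          ((w + (-((τ - c) / m)) • (⟨v - m • f, hv'⟩ : (ℝ ∙ f)ᗮ) : (ℝ ∙ f)ᗮ) : W) + c • f := by
        have h3 : ((w + (-((τ - c) / m)) • (⟨v - m • f, hv'⟩ : (ℝ ∙ f)ᗮ) : (ℝ ∙ f)ᗮ) : W) =
            (w : W) + (-((τ - c) / m)) • (v - m • f) := rfl
        rw [h3]
        have h4 : τ • f = (((τ - c) / m) * m + c) • f := by
          congr 1
          field_simp
          ring
        rw [h4, smul_sub, smul_smul, neg_smul, neg_mul, neg_smul, add_smul]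
        abel
      constructor
      · rintro ⟨t, -, ht⟩
        have h3 := huniq w t ht
        rw [h3, h2] at ht
        exact ht
      · intro hw
        refine ⟨(τ - c) / m, hT, ?_⟩
        rw [h2]
        exact hw
    rw [h1, measure_preimage_add_right]
  · rw [indicator_of_notMem (show τ ∉ {τ : ℝ | (τ - c) / m ∈ Icc (0 : ℝ) 1} from hT)]
    have h1 : {w : (ℝ ∙ f)ᗮ | (w : W) + τ • f ∈ {x : W | ∃ t ∈ Icc (0 : ℝ) 1, x - t • v ∈ A}} = ∅ := by
      rw [eq_empty_iff_forall_notMem]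
      rintro w ⟨t, ht0, ht⟩
      have h3 := huniq w t ht
      rw [h3] at ht0
      exact hT ht0
    rw [h1, measure_empty]

theorem vol_cyl_hyper {k : ℕ} (hW : finrank ℝ W = k + 2) {f v : W} (hf : ‖f‖ = 1) (hv : v ≠ 0) {c : ℝ} {A : Set W}
    (hA : IsCompact A) (hAf : ∀ x ∈ A, inner ℝ x f = c) :
    ENNReal.ofReal ‖v‖ * volume (cyl A v) = ENNReal.ofReal |inner ℝ f v| * μHE[k + 1] A := by
  by_cases hfv : inner ℝ f v = (0 : ℝ)
  · rw [hfv, abs_zero, ENNReal.ofReal_zero, zero_mul]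
    have hf0 : f ≠ 0 := by
      rintro rfl
      simp at hf
    have h1 : volume (cyl A v) = 0 := by
      refine measure_mono_null ?_ (hyper_null hf0 c)
      rintro x ⟨⟨s, hs⟩, -⟩
      have h2 := hAf _ hs
      rw [inner_add_left, inner_smul_left, real_inner_comm f v, hfv, mul_zero, add_zero] at h2
      exact h2
    rw [h1, mul_zero]
  · rw [vol_cyl_line hv hA, ← vol_slant_v hfv hA hAf, vol_slant_f hf hfv hA hAf, hmeas_hyper hW hf hAf]

theorem vol_cyl_fac {k : ℕ} (hW : finrank ℝ W = k + 2) {y v : W} (hy : y ≠ 0) (hv : v ≠ 0) {A : Set W}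
    (hA : IsCompact A) (hAy : ∀ x ∈ A, inner ℝ x y = 1) :
    volume (cyl A v) = ENNReal.ofReal (|inner ℝ y v| / (‖y‖ * ‖v‖)) * μHE[k + 1] A := by
  have hy0 : 0 < ‖y‖ := norm_pos_iff.mpr hy
  have hv0 : 0 < ‖v‖ := norm_pos_iff.mpr hv
  have hf : ‖(‖y‖⁻¹ • y)‖ = 1 := by rw [norm_smul, norm_inv, norm_norm, inv_mul_cancel₀ hy0.ne']
  have h1 := vol_cyl_hyper hW hf hv hA (c := ‖y‖⁻¹) (fun x hx => by rw [inner_smul_right, hAy x hx, mul_one])
  have h2 : ENNReal.ofReal ‖v‖ ≠ 0 := by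
    rw [ne_eq, ENNReal.ofReal_eq_zero]
    linarith
  have h3 : |inner ℝ (‖y‖⁻¹ • y) v| = ‖v‖ * (|inner ℝ y v| / (‖y‖ * ‖v‖)) := by
    rw [inner_smul_left]
    simp only [conj_trivial]
    rw [abs_mul, abs_of_pos (inv_pos.2 hy0)]
    field_simp
  rw [h3, ENNReal.ofReal_mul hv0.le, mul_assoc] at h1
  exact (ENNReal.mul_right_inj h2 ENNReal.ofReal_ne_top).1 h1

end Pool.Agent.MP_c8a077_gtP.CA
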