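import Pool.Agent.Lib.MP_c8a077_gtP.CA.Two

/-!
# The frontier of a polyhedron

`frontier_poly`: `P = poly Y` is closed, so `frontier P = P \ interior P`.  If `⟨x,y⟩ < 1` for all `y ∈ Y` then `x` is in the interior (finite intersection of open sets).  If `x ∈ P` and `⟨x,y⟩ = 1`, `y ∈ Y`, `y ≠ 0`: the points `x + t y`, `t > 0`, are not in `P`.
`hmeas_frontier_poly`: `measure_biUnion_finset₀` (the `fac Y y` are closed, pairwise almost disjoint by `inter_null`).
-/

open MeasureTheory Set Metric Topology Filter Module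
open scoped ENNReal Pointwise

open Pool.Agent.MP_c8a077_gt

namespace Pool.Agent.MP_c8a077_gtP.CA

variable {W : Type*} [NormedAddCommGroup W] [InnerProductSpace ℝ W]

theorem frontier_poly {Y : Finset W} (hY : ∀ y ∈ Y, y ≠ 0) : frontier (poly Y) = ⋃ y ∈ Y, fac Y y := by
  rw [(isClosed_poly Y).frontier_eq]
  ext x
  simp only [Set.mem_sdiff, mem_iUnion, exists_prop]
  constructor
  · rintro ⟨hx, hxi⟩
    by_contra hcon
    push Not at hcon
    apply hxi
    have hopen : IsOpen (⋂ y ∈ Y, {z : W | inner ℝ z y < 1}) :=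
      isOpen_biInter_finset fun y _ => isOpen_lt (by fun_prop) continuous_const
    refine mem_interior.2 ⟨_, ?_, hopen, ?_⟩
    · intro z hz y hy
      have := mem_iInter₂.1 hz y hy
      exact le_of_lt this
    · refine mem_iInter₂.2 fun y hy => ?_
      have h1 := hx y hy
      have h2 := hcon y hy
      rcases lt_or_eq_of_le h1 with h | h
      · exact h
      · exact absurd ⟨hx, h⟩ h2
  · rintro ⟨y, hy, hx, hxy⟩
    refine ⟨hx, fun hi => ?_⟩
    have hy0 : 0 < ‖y‖ ^ 2 := by
      have := norm_pos_iff.mpr (hY y hy)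
      positivity
    have hc : Tendsto (fun t : ℝ => x + t • y) (𝓝[>] 0) (𝓝 x) := by
      have h1 : Continuous fun t : ℝ => x + t • y := by fun_prop
      have h2 := h1.tendsto 0
      simp only [zero_smul, add_zero] at h2
      exact h2.mono_left nhdsWithin_le_nhds
    have h3 : ∀ᶠ t in 𝓝[>] (0 : ℝ), x + t • y ∈ poly Y := hc (mem_interior_iff_mem_nhds.1 hi)
    obtain ⟨t, ht, ht0⟩ := (h3.and self_mem_nhdsWithin).exists
    have h4 := ht y hy
    rw [inner_add_left, inner_smul_left, hxy, real_inner_self_eq_norm_sq] at h4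
    simp only [conj_trivial] at h4
    have h5 : 0 < t * ‖y‖ ^ 2 := mul_pos ht0 hy0
    linarith

theorem hmeas_frontier_poly [FiniteDimensional ℝ W] [MeasurableSpace W] [BorelSpace W] {k : ℕ}
    (hW : finrank ℝ W = k + 2) {Y : Finset W} (hY : ∀ y ∈ Y, y ≠ 0) :
    μHE[k + 1] (frontier (poly Y)) = ∑ y ∈ Y, μHE[k + 1] (fac Y y) := by
  rw [frontier_poly hY]
  apply measure_biUnion_finset₀
  · intro y hy y' _ hne
    refine measure_mono_null ?_ (inter_null hW (hY y hy) hne)
    rintro x ⟨hx, hx'⟩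
    exact ⟨hx.2, hx'.2⟩
  · intro y _
    exact (isClosed_fac Y y).measurableSet.nullMeasurableSet

end Pool.Agent.MP_c8a077_gtP.CA
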