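import Pool.Agent.Lib.MP_c8a077_gtP.CA.Fac

/-!
# Two different facets meet in a null set

`A_n = {x | ⟨x,y⟩ = 1 ∧ ⟨x,y'⟩ = 1 ∧ ‖x‖ ≤ n}` is compact.  `z = ⟨y',y⟩ y - ⟨y,y⟩ y'` is orthogonal to `y` and `⟨x,z⟩ = ⟨y',y⟩ - ⟨y,y⟩` on `A_n`.  If `z = 0` then `A_n` is empty: otherwise `⟨y',y⟩ = ⟨y,y⟩`, so `y = y'`.
If `z ≠ 0`: `cyl A_n y ⊆ {⟨x,z⟩ = const}` is null (`hyper_null`); `vol_cyl_fac` with `v = y` gives `μHE[k+1] A_n = 0`.  Union over `n`.
`inter_cyl_null`: let `v ≠ 0` be any vector with `⟨y,v⟩ ≠ 0`; `A ⊆ {⟨x,y⟩ = 1 ∧ ⟨x,y'⟩ = 1}` compact: `vol_cyl_fac` and `inter_null`.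
-/

open MeasureTheory Set Metric Topology Filter Module
open scoped ENNReal Pointwise

open Pool.Agent.MP_c8a077_gt

namespace Pool.Agent.MP_c8a077_gtP.CA

variable {W : Type*} [NormedAddCommGroup W] [InnerProductSpace ℝ W] [FiniteDimensional ℝ W]
  [MeasurableSpace W] [BorelSpace W]

private theorem Int_compact {k : ℕ} (hW : finrank ℝ W = k + 2) {y y' : W} (hy : y ≠ 0) (hne : y ≠ y') {A : Set W}
    (hA : IsCompact A) (hA1 : ∀ x ∈ A, inner ℝ x y = (1 : ℝ)) (hA2 : ∀ x ∈ A, inner ℝ x y' = (1 : ℝ)) :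
    μHE[k + 1] A = 0 := by
  rcases A.eq_empty_or_nonempty with hE | ⟨x₀, hx₀⟩
  · rw [hE, measure_empty]
  have hy2 : 0 < ‖y‖ ^ 2 := by
    have := norm_pos_iff.mpr hy
    positivity
  obtain ⟨z, hz⟩ : ∃ z : W, z = (inner ℝ y' y : ℝ) • y - (‖y‖ ^ 2) • y' := ⟨_, rfl⟩
  have hxz : ∀ x ∈ A, inner ℝ x z = inner ℝ y' y - ‖y‖ ^ 2 := by
    intro x hx
    rw [hz, inner_sub_right, inner_smul_right, inner_smul_right, hA1 x hx, hA2 x hx]
    ring
  have hyz : inner ℝ y z = (0 : ℝ) := by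
    rw [hz, inner_sub_right, inner_smul_right, inner_smul_right, real_inner_self_eq_norm_sq, real_inner_comm y' y]
    ring
  have hz0 : z ≠ 0 := by
    intro h0
    have h1 := hxz x₀ hx₀
    rw [h0, inner_zero_right] at h1
    have h2 : (‖y‖ ^ 2) • y = (‖y‖ ^ 2) • y' := by
      have h3 : (inner ℝ y' y : ℝ) = ‖y‖ ^ 2 := by linarith
      rw [h3] at hz
      rw [h0] at hz
      exact sub_eq_zero.1 hz.symm
    exact hne (smul_right_injective W hy2.ne' h2)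
  have h1 := vol_cyl_fac hW hy hy hA hA1
  have h2 : volume (cyl A y) = 0 := by
    refine measure_mono_null ?_ (hyper_null hz0 (inner ℝ y' y - ‖y‖ ^ 2))
    rintro x ⟨⟨s, hs⟩, -⟩
    have h3 := hxz _ hs
    rw [inner_add_left, inner_smul_left, hyz] at h3
    simpa using h3
  rw [h2] at h1
  have h3 : ENNReal.ofReal (|inner ℝ y y| / (‖y‖ * ‖y‖)) ≠ 0 := by
    rw [real_inner_self_eq_norm_sq, abs_of_pos hy2]
    have h4 : ‖y‖ ^ 2 / (‖y‖ * ‖y‖) = 1 := by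
      rw [← sq, div_self hy2.ne']
    rw [h4]
    simp
  rcases mul_eq_zero.1 h1.symm with h | h
  · exact absurd h h3
  · exact h

theorem inter_null {k : ℕ} (hW : finrank ℝ W = k + 2) {y y' : W} (hy : y ≠ 0) (hne : y ≠ y') :
    μHE[k + 1] {x : W | inner ℝ x y = 1 ∧ inner ℝ x y' = 1} = 0 := by
  have h : {x : W | inner ℝ x y = 1 ∧ inner ℝ x y' = 1} ⊆
      ⋃ n : ℕ, ({x : W | inner ℝ x y = 1 ∧ inner ℝ x y' = 1} ∩ closedBall 0 n) := by
    intro x hx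
    obtain ⟨n, hn⟩ := exists_nat_ge ‖x‖
    exact mem_iUnion.2 ⟨n, hx, by simpa using hn⟩
  refine measure_mono_null h (measure_iUnion_null fun n => ?_)
  have hcl : IsClosed {x : W | inner ℝ x y = 1 ∧ inner ℝ x y' = 1} :=
    (isClosed_eq (f := fun x : W => (inner ℝ x y : ℝ)) (by fun_prop) continuous_const).inter
      (isClosed_eq (f := fun x : W => (inner ℝ x y' : ℝ)) (by fun_prop) continuous_const)
  exact Int_compact hW hy hne ((isCompact_closedBall (0 : W) n).inter_left hcl) (fun x hx => hx.1.1)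
    (fun x hx => hx.1.2)

theorem inter_cyl_null {k : ℕ} (hW : finrank ℝ W = k + 2) {y y' v : W} (hy : y ≠ 0) (hne : y ≠ y') (hv : v ≠ 0)
    {A : Set W} (hA : IsCompact A) (hA1 : ∀ x ∈ A, inner ℝ x y = 1) (hA2 : ∀ x ∈ A, inner ℝ x y' = 1) :
    volume (cyl A v) = 0 := by
  rw [vol_cyl_fac hW hy hv hA hA1]
  have h1 : μHE[k + 1] A = 0 := Int_compact hW hy hne hA hA1 hA2
  rw [h1, mul_zero]

end Pool.Agent.MP_c8a077_gtP.CA
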