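import Pool.Agent.Lib.MP_c8a077_gtP.CA.Set

/-!
# The constant of Cauchy's formula

`kap_eq`: let `φ : W ≃ₗᵢ E (k+2)` (`LinearIsometryEquiv.ofFinrankEq` or `stdOrthonormalBasis`), `e = EuclideanSpace.single 0 1`, `z = φ (‖y‖⁻¹ y)`, `‖z‖ = 1 = ‖e‖`; the reflection `ρ` in `(ℝ (z - e))ᗮ` maps `z` to `e` (`reflection_sub`).  `ψ = ρ ∘ φ` is a linear isometry,
measure preserving, `|⟨y,v⟩|/‖y‖ = |⟨e, ψ v⟩| = |(ψ v) 0|`, `‖ψ v‖ = ‖v‖`.
`kap_ne_top`: `|v 0| / ‖v‖ ≤ 1` and the Gaussian is integrable (`GaussianFourier.integrable_cexp_neg_mul_sq_norm_add`, or `integrable_exp_neg_mul_sq_norm`, or: bounded by products over the coordinates).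
`kap_ne_zero`: the integrand is positive on the open nonempty set `{v | v 0 ≠ 0}` (`lintegral_eq_zero_iff`: otherwise it would be zero almost everywhere, but the set `{v 0 ≠ 0}` is open and nonempty, so it has positive measure).
`lintegral_gam_lt_top`: the integral of the Gaussian over `W` is finite.
-/

open MeasureTheory Set Metric Topology Filter Module
open scoped ENNReal Pointwise

open Pool.Agent.MP_c8a077_gt

namespace Pool.Agent.MP_c8a077_gtP.CA

variable {W : Type*} [NormedAddCommGroup W] [InnerProductSpace ℝ W] [FiniteDimensional ℝ W]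
  [MeasurableSpace W] [BorelSpace W]

theorem lintegral_gam_lt_top : ∫⁻ v : W, gam v < ∞ := by
  have hb : (0 : ℝ) < ((1 / 2 : ℝ) : ℂ).re := by
    rw [Complex.ofReal_re]
    norm_num
  have h := (GaussianFourier.integrable_cexp_neg_mul_sq_norm_add (V := W) hb 0 0).norm
  have h2 : (fun v : W => ‖Complex.exp (-((1 / 2 : ℝ) : ℂ) * (‖v‖ : ℂ) ^ 2 + 0 * (inner ℝ (0 : W) v : ℝ))‖) =
      fun v : W => Real.exp (-‖v‖ ^ 2 / 2) := by
    funext v
    have e : (-((1 / 2 : ℝ) : ℂ) * (‖v‖ : ℂ) ^ 2 + 0 * (inner ℝ (0 : W) v : ℝ)) =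
        ((-‖v‖ ^ 2 / 2 : ℝ) : ℂ) := by
      push_cast
      ring
    rw [e, Complex.norm_exp, Complex.ofReal_re]
  rw [h2] at h
  exact h.lintegral_lt_top

omit [MeasurableSpace W] [BorelSpace W] in
private theorem exists_iso {k : ℕ} (hW : finrank ℝ W = k + 2) {y : W} (hy : y ≠ 0) :
    ∃ ψ : W ≃ₗᵢ[ℝ] E (k + 2), ∀ v : W, inner ℝ y v = ‖y‖ * (ψ v) 0 := by
  let φ : W ≃ₗᵢ[ℝ] E (k + 2) := ((stdOrthonormalBasis ℝ W).reindex (finCongr hW)).repr
  have hy0 : 0 < ‖y‖ := norm_pos_iff.2 hy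
  let z : E (k + 2) := φ (‖y‖⁻¹ • y)
  let e : E (k + 2) := EuclideanSpace.single 0 (1 : ℝ)
  have hz : ‖z‖ = 1 := by
    change ‖φ (‖y‖⁻¹ • y)‖ = 1
    rw [LinearIsometryEquiv.norm_map, norm_smul, norm_inv, norm_norm, inv_mul_cancel₀ hy0.ne']
  have he : ‖e‖ = 1 := by
    change ‖EuclideanSpace.single (0 : Fin (k + 2)) (1 : ℝ)‖ = 1
    rw [PiLp.norm_single, norm_one]
  let ρ : E (k + 2) ≃ₗᵢ[ℝ] E (k + 2) := Submodule.reflection (ℝ ∙ (z - e))ᗮ
  have hρ : ρ z = e := Submodule.reflection_sub (hz.trans he.symm)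
  refine ⟨φ.trans ρ, fun v => ?_⟩
  have h1 : (φ.trans ρ) (‖y‖⁻¹ • y) = e := by
    rw [LinearIsometryEquiv.trans_apply]
    exact hρ
  have h2 : inner ℝ ((φ.trans ρ) (‖y‖⁻¹ • y)) ((φ.trans ρ) v) = inner ℝ (‖y‖⁻¹ • y) v :=
    LinearIsometryEquiv.inner_map_map _ _ _
  rw [h1] at h2
  have h3 : inner ℝ e ((φ.trans ρ) v) = ((φ.trans ρ) v) 0 := by
    change inner ℝ (EuclideanSpace.single (0 : Fin (k + 2)) (1 : ℝ)) ((φ.trans ρ) v) = _
    rw [EuclideanSpace.inner_single_left]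
    simp
  rw [h3, real_inner_smul_left] at h2
  rw [h2]
  field_simp

theorem kap_eq {k : ℕ} (hW : finrank ℝ W = k + 2) {y : W} (hy : y ≠ 0) :
    ∫⁻ v : W, gam v * ENNReal.ofReal (|inner ℝ y v| / (‖y‖ * ‖v‖)) = kap k := by
  obtain ⟨ψ, hψ⟩ := exists_iso hW hy
  have hy0 : 0 < ‖y‖ := norm_pos_iff.2 hy
  unfold kap
  rw [← ψ.measurePreserving.lintegral_comp_emb ψ.toHomeomorph.measurableEmbedding]
  refine lintegral_congr fun v => ?_
  have h1 : gam (ψ v) = gam v := by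
    unfold gam
    rw [LinearIsometryEquiv.norm_map]
  rw [h1, hψ v, LinearIsometryEquiv.norm_map, abs_mul, abs_of_pos hy0, mul_div_mul_left _ _ hy0.ne']

theorem kap_ne_top (k : ℕ) : kap k ≠ ∞ := by
  have h : kap k ≤ ∫⁻ v : E (k + 2), gam v := by
    unfold kap
    refine lintegral_mono fun v => ?_
    have h1 : |v 0| / ‖v‖ ≤ 1 := by
      refine div_le_one_of_le₀ ?_ (norm_nonneg v)
      have := EuclideanSpace.norm_eq v
      have h2 := PiLp.norm_apply_le v 0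
      rwa [Real.norm_eq_abs] at h2
    calc gam v * ENNReal.ofReal (|v 0| / ‖v‖) ≤ gam v * ENNReal.ofReal 1 := by
          gcongr
      _ = gam v := by rw [ENNReal.ofReal_one, mul_one]
  exact ne_top_of_le_ne_top lintegral_gam_lt_top.ne h

theorem kap_ne_zero (k : ℕ) : kap k ≠ 0 := by
  have hmeas : Measurable fun v : E (k + 2) => gam v * ENNReal.ofReal (|v 0| / ‖v‖) := by
    unfold gam
    fun_prop
  intro h0
  unfold kap at h0
  rw [lintegral_eq_zero_iff hmeas] at h0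
  have hopen : IsOpen {v : E (k + 2) | v 0 ≠ 0} := isOpen_ne_fun (by fun_prop) continuous_const
  have hne : ({v : E (k + 2) | v 0 ≠ 0}).Nonempty := by
    refine ⟨EuclideanSpace.single 0 (1 : ℝ), ?_⟩
    change (EuclideanSpace.single (0 : Fin (k + 2)) (1 : ℝ)) 0 ≠ 0
    simp
  have hpos : 0 < volume {v : E (k + 2) | v 0 ≠ 0} := hopen.measure_pos volume hne
  have hz : volume {v : E (k + 2) | v 0 ≠ 0} = 0 := by
    refine measure_mono_null (fun v hv => ?_) (ae_iff.1 h0)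
    change ¬ (gam v * ENNReal.ofReal (|v 0| / ‖v‖) = 0)
    have hv0 : v 0 ≠ 0 := hv
    have hvn : v ≠ 0 := by
      rintro rfl
      exact hv0 rfl
    refine mul_ne_zero ?_ ?_
    · unfold gam
      exact (ENNReal.ofReal_pos.2 (Real.exp_pos _)).ne'
    · exact (ENNReal.ofReal_pos.2 (div_pos (abs_pos.2 hv0) (norm_pos_iff.2 hvn))).ne'
  exact hpos.ne' hz

theorem cau_ne_top (k : ℕ) : cau k ≠ ∞ := ENNReal.div_ne_top (by norm_num) (kap_ne_zero k)

theorem cau_ne_zero (k : ℕ) : cau k ≠ 0 := by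
  unfold cau
  rw [ne_eq, ENNReal.div_eq_zero_iff]
  push Not
  exact ⟨by norm_num, kap_ne_top k⟩

end Pool.Agent.MP_c8a077_gtP.CA
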