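import Pool.Agent.Lib.MP_c8a077_gtP.CA.Fro
import Pool.Agent.Lib.MP_c8a077_gtP.CA.Kap

/-!
# Cauchy's formula for polytopes

For almost every `v` (`v ≠ 0`, `⟨y,v⟩ ≠ 0` for `y ∈ Y`: `hyper_null`), `two_fac` and `vol_cyl_fac`: `2 * volume (cyl P v) = ∑ y ∈ Y, ofReal (|⟨y,v⟩|/(‖y‖‖v‖)) * μHE[k+1] (fac Y y)`.  Integrate with the weight `gam`: `kap_eq`, `hmeas_frontier_poly`.
-/

open MeasureTheory Set Metric Topology Filter Module
open scoped ENNReal Pointwise

open Pool.Agent.MP_c8a077_gt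

namespace Pool.Agent.MP_c8a077_gtP.CA

variable {W : Type*} [NormedAddCommGroup W] [InnerProductSpace ℝ W] [FiniteDimensional ℝ W]
  [MeasurableSpace W] [BorelSpace W]

private theorem Pol_ae {k : ℕ} (hW : finrank ℝ W = k + 2) {Y : Finset W} (hY : ∀ y ∈ Y, y ≠ 0) :
    ∀ᵐ v : W, v ≠ 0 ∧ ∀ y ∈ Y, inner ℝ y v ≠ (0 : ℝ) := by
  have : Nontrivial W := by
    apply nontrivial_of_finrank_pos (R := ℝ)
    omega
  have h1 : ∀ᵐ v : W, v ≠ 0 := by
    rw [ae_iff]
    simp
  have h2 : ∀ᵐ v : W, ∀ y ∈ Y, inner ℝ y v ≠ (0 : ℝ) := by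
    rw [Finset.eventually_all]
    intro y hy
    rw [ae_iff]
    push Not
    have h3 := hyper_null (hY y hy) 0
    refine measure_mono_null ?_ h3
    intro v hv
    rw [mem_ofPred_eq] at hv ⊢
    rw [real_inner_comm]
    exact hv
  exact h1.and h2

theorem cauchy_poly {k : ℕ} (hW : finrank ℝ W = k + 2) {Y : Finset W} (hY : ∀ y ∈ Y, y ≠ 0)
    (hb : Bornology.IsBounded (poly Y)) :
    μHE[k + 1] (frontier (poly Y)) = cau k * ∫⁻ v : W, gam v * volume (cyl (poly Y) v) := by
  have hcf : ∀ y, IsCompact (fac Y y) := fun y =>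
    Metric.isCompact_of_isClosed_isBounded (isClosed_fac Y y) (hb.subset fun x hx => hx.1)
  have hgm : Measurable (gam : W → ℝ≥0∞) := by
    unfold gam
    fun_prop
  have h1 : 2 * ∫⁻ v : W, gam v * volume (cyl (poly Y) v) = kap k * μHE[k + 1] (frontier (poly Y)) := by
    calc 2 * ∫⁻ v : W, gam v * volume (cyl (poly Y) v) = ∫⁻ v : W, 2 * (gam v * volume (cyl (poly Y) v)) :=
          (lintegral_const_mul' _ _ (by norm_num)).symm
      _ = ∫⁻ v : W, ∑ y ∈ Y, (gam v * ENNReal.ofReal (|inner ℝ y v| / (‖y‖ * ‖v‖))) * μHE[k + 1] (fac Y y) := by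
          apply lintegral_congr_ae
          filter_upwards [Pol_ae hW hY] with v hv
          have h2 := two_fac hb hv.2 hv.1
          calc 2 * (gam v * volume (cyl (poly Y) v)) = gam v * (2 * volume (cyl (poly Y) v)) := by ring
            _ = gam v * ∑ y ∈ Y, volume (cyl (fac Y y) v) := by rw [h2]
            _ = ∑ y ∈ Y, (gam v * ENNReal.ofReal (|inner ℝ y v| / (‖y‖ * ‖v‖))) * μHE[k + 1] (fac Y y) := by
                rw [Finset.mul_sum]
                apply Finset.sum_congr rfl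
                intro y hy
                rw [vol_cyl_fac hW (hY y hy) hv.1 (hcf y) (fun x hx => hx.2)]
                ring
      _ = ∑ y ∈ Y, ∫⁻ v : W, (gam v * ENNReal.ofReal (|inner ℝ y v| / (‖y‖ * ‖v‖))) * μHE[k + 1] (fac Y y) := by
          apply lintegral_finsetSum
          intro y _
          exact (hgm.mul (by fun_prop)).mul_const _
      _ = ∑ y ∈ Y, kap k * μHE[k + 1] (fac Y y) := by
          apply Finset.sum_congr rfl
          intro y hy
          have hm : Measurable fun v : W => gam v * ENNReal.ofReal (|inner ℝ y v| / (‖y‖ * ‖v‖)) :=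
            hgm.mul (by fun_prop)
          rw [lintegral_mul_const _ hm, kap_eq hW (hY y hy)]
      _ = kap k * μHE[k + 1] (frontier (poly Y)) := by
          rw [hmeas_frontier_poly hW hY, Finset.mul_sum]
  have h0 := kap_ne_zero k
  have ht := kap_ne_top k
  unfold cau
  calc μHE[k + 1] (frontier (poly Y)) = (kap k)⁻¹ * (kap k * μHE[k + 1] (frontier (poly Y))) := by
        rw [← mul_assoc, ENNReal.inv_mul_cancel h0 ht, one_mul]
    _ = (kap k)⁻¹ * (2 * ∫⁻ v : W, gam v * volume (cyl (poly Y) v)) := by rw [h1]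
    _ = 2 / kap k * ∫⁻ v : W, gam v * volume (cyl (poly Y) v) := by
        rw [div_eq_mul_inv]
        ring

end Pool.Agent.MP_c8a077_gtP.CA
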