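import Pool.Agent.Lib.MP_c8a077_gtP.CA.Dec

/-!
# Cylinders over compact sets are closed
-/

open MeasureTheory Set Metric Topology Filter Module
open scoped ENNReal Pointwise

open Pool.Agent.MP_c8a077_gt

namespace Pool.Agent.MP_c8a077_gtP.CA

variable {W : Type*} [NormedAddCommGroup W] [InnerProductSpace ℝ W]

theorem cyl_mono {A B : Set W} (h : A ⊆ B) (v : W) : cyl A v ⊆ cyl B v :=
  fun _ hx => ⟨hx.1.imp fun _ hs => h hs, hx.2⟩

theorem isClosed_line [FiniteDimensional ℝ W] {A : Set W} (hA : IsCompact A) (v : W) :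
    IsClosed {x : W | ∃ s : ℝ, x + s • v ∈ A} := by
  have h : {x : W | ∃ s : ℝ, x + s • v ∈ A} = A + ((ℝ ∙ v : Submodule ℝ W) : Set W) := by
    ext x
    simp only [mem_ofPred_eq, Set.mem_add, SetLike.mem_coe, Submodule.mem_span_singleton]
    constructor
    · rintro ⟨s, hs⟩
      exact ⟨x + s • v, hs, (-s) • v, ⟨-s, rfl⟩, by simp⟩
    · rintro ⟨a, ha, z, ⟨s, rfl⟩, rfl⟩
      exact ⟨-s, by simpa using ha⟩
  rw [h]
  exact (Submodule.closed_of_finiteDimensional (ℝ ∙ v)).add_left_of_isCompact hA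

theorem isClosed_cyl [FiniteDimensional ℝ W] {A : Set W} (hA : IsCompact A) (v : W) : IsClosed (cyl A v) := by
  have h1 : IsClosed {x : W | 0 ≤ inner ℝ x v} := isClosed_le continuous_const (by fun_prop)
  have h2 : IsClosed {x : W | inner ℝ x v ≤ ‖v‖} := isClosed_le (by fun_prop) continuous_const
  exact (isClosed_line hA v).inter (h1.inter h2)

/-- A hyperplane has measure zero. -/
theorem hyper_null [FiniteDimensional ℝ W] [MeasurableSpace W] [BorelSpace W] {z : W} (hz : z ≠ 0) (c : ℝ) :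
    volume {x : W | inner ℝ x z = c} = 0 := by
  have hz2 : 0 < ‖z‖ := norm_pos_iff.mpr hz
  have he : ‖(‖z‖⁻¹ • z)‖ = 1 := by
    rw [norm_smul, norm_inv, norm_norm, inv_mul_cancel₀ hz2.ne']
  have hm : MeasurableSet {x : W | inner ℝ x z = c} :=
    (isClosed_eq (by fun_prop) continuous_const).measurableSet
  rw [vol_dec' he hm]
  have h0 : ∀ w : (ℝ ∙ (‖z‖⁻¹ • z))ᗮ, volume {t : ℝ | (w : W) + t • (‖z‖⁻¹ • z) ∈ {x : W | inner ℝ x z = c}} = 0 := by
    intro w
    have hsub : {t : ℝ | (w : W) + t • (‖z‖⁻¹ • z) ∈ {x : W | inner ℝ x z = c}} ⊆ {‖z‖⁻¹ * (c - inner ℝ (w : W) z)} := by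
      intro t ht
      simp only [mem_ofPred_eq] at ht
      rw [inner_add_left, inner_smul_left, inner_smul_left, real_inner_self_eq_norm_sq] at ht
      simp only [conj_trivial] at ht
      rw [mem_singleton_iff]
      field_simp
      field_simp at ht
      linarith
    exact measure_mono_null hsub (by simp)
  rw [lintegral_congr h0, lintegral_zero]

end Pool.Agent.MP_c8a077_gtP.CA
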