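import Pool.Agent.Lib.MP_c8a077_gtP.CA.Int

/-!
# Almost every line which meets a polytope meets exactly two facets

`P = poly Y` is compact.  `∑ y ∈ Y, volume (cyl (fac Y y) v) = ∫ #{y ∈ Y | x ∈ cyl (fac Y y) v} dx` (`lintegral_finset_sum`, indicators; the cylinders are closed, `isClosed_cyl`), so it is enough that for almost all `x`
`#{y ∈ Y | x ∈ cyl (fac Y y) v} = 2` if `x ∈ cyl P v` and `= 0` otherwise (`two_pt`).
`two_pt`: put `s_y = (1 - ⟨x,y⟩)/⟨y,v⟩`: the only `s` with `⟨x + s v, y⟩ = 1`.  For `y ≠ y'` the set of the `x` with `s_y = s_y'` is null: it is `{⟨x, z⟩ = c}`, `z = ⟨y',v⟩ y - ⟨y,v⟩ y'`, `c = ⟨y',v⟩ - ⟨y,v⟩` (`hyper_null` if `z ≠ 0`; if `z = 0` then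
`c ≠ 0`, since otherwise `y = y'`, and the set is empty).  Suppose the `s_y` are different and `x + s₀ v ∈ P`.  `s ∈ I := {s | x + s v ∈ P}` iff `s ≤ s_y` for all `y` with `⟨y,v⟩ > 0` and `s ≥ s_y` for all `y` with `⟨y,v⟩ < 0`.  As `P` is bounded both kinds of `y` exist.
Let `a` be the `y` with `⟨y,v⟩ > 0` and least `s_y`, `b` the `y` with `⟨y,v⟩ < 0` and greatest `s_y`; `s_b ≤ s₀ ≤ s_a`, so `s_a, s_b ∈ I`.  `x ∈ cyl (fac Y y) v` iff `s_y ∈ I` (and `0 ≤ ⟨x,v⟩ ≤ ‖v‖`) iff `y = a` or `y = b`; `a ≠ b`.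
-/

open MeasureTheory Set Metric Topology Filter Module
open scoped ENNReal Pointwise

open Pool.Agent.MP_c8a077_gt

namespace Pool.Agent.MP_c8a077_gtP.CA

variable {W : Type*} [NormedAddCommGroup W] [InnerProductSpace ℝ W] [FiniteDimensional ℝ W]
  [MeasurableSpace W] [BorelSpace W]

omit [FiniteDimensional ℝ W] [MeasurableSpace W] [BorelSpace W] in
theorem isClosed_poly (Y : Finset W) : IsClosed (poly Y) := by
  have h : poly Y = ⋂ y ∈ Y, {x : W | inner ℝ x y ≤ 1} := by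
    ext x
    simp [poly]
  rw [h]
  exact isClosed_biInter fun y _ => isClosed_le (by fun_prop) continuous_const

omit [FiniteDimensional ℝ W] [MeasurableSpace W] [BorelSpace W] in
theorem isClosed_fac (Y : Finset W) (y : W) : IsClosed (fac Y y) :=
  (isClosed_poly Y).inter (isClosed_eq (by fun_prop) continuous_const)

omit [FiniteDimensional ℝ W] [MeasurableSpace W] [BorelSpace W] in
private theorem Two_inner (x v y : W) (s : ℝ) : inner ℝ (x + s • v) y = inner ℝ x y + s * (inner ℝ y v : ℝ) := by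
  rw [inner_add_left, inner_smul_left, real_inner_comm y v]
  rfl

omit [FiniteDimensional ℝ W] [MeasurableSpace W] [BorelSpace W] in
private theorem Two_pos {x v y : W} (hp : (0 : ℝ) < inner ℝ y v) (s : ℝ) :
    inner ℝ (x + s • v) y ≤ (1 : ℝ) ↔ s ≤ (1 - inner ℝ x y) / inner ℝ y v := by
  rw [Two_inner, le_div_iff₀ hp]
  constructor <;> intro h <;> linarith

omit [FiniteDimensional ℝ W] [MeasurableSpace W] [BorelSpace W] in
private theorem Two_neg {x v y : W} (hp : (inner ℝ y v : ℝ) < 0) (s : ℝ) :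
    inner ℝ (x + s • v) y ≤ (1 : ℝ) ↔ (1 - inner ℝ x y) / inner ℝ y v ≤ s := by
  rw [Two_inner, div_le_iff_of_neg hp]
  constructor <;> intro h <;> linarith

omit [FiniteDimensional ℝ W] [MeasurableSpace W] [BorelSpace W] in
private theorem Two_eq {x v y : W} (hp : (inner ℝ y v : ℝ) ≠ 0) (s : ℝ) :
    inner ℝ (x + s • v) y = (1 : ℝ) ↔ s = (1 - inner ℝ x y) / inner ℝ y v := by
  rw [Two_inner, eq_div_iff hp]
  constructor <;> intro h <;> linarith

omit [FiniteDimensional ℝ W] [MeasurableSpace W] [BorelSpace W] in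
private theorem Two_unb {Y : Finset W} (hb : Bornology.IsBounded (poly Y)) {v x : W} (hv0 : v ≠ 0) (s₀ : ℝ)
    (ε : ℝ) (hε : ε = 1 ∨ ε = -1) (h : ∀ t : ℝ, 0 ≤ t → x + (s₀ + ε * t) • v ∈ poly Y) : False := by
  obtain ⟨R, hR⟩ := hb.exists_norm_le
  have hvn : 0 < ‖v‖ := norm_pos_iff.mpr hv0
  have hε1 : |ε| = 1 := by
    rcases hε with h | h <;> rw [h] <;> simp
  set t : ℝ := (|R| + ‖x + s₀ • v‖ + 1) / ‖v‖ with ht
  have ht0 : 0 ≤ t := by positivity
  have h1 := hR _ (h t ht0)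
  have h2 : x + (s₀ + ε * t) • v = (x + s₀ • v) + (ε * t) • v := by
    rw [add_smul, add_assoc]
  have h3 : ‖(ε * t) • v‖ = |R| + ‖x + s₀ • v‖ + 1 := by
    rw [norm_smul, Real.norm_eq_abs, abs_mul, hε1, one_mul, abs_of_nonneg ht0, ht, div_mul_cancel₀ _ hvn.ne']
  have h4 : ‖(ε * t) • v‖ ≤ ‖x + (s₀ + ε * t) • v‖ + ‖x + s₀ • v‖ := by
    have h5 : (ε * t) • v = (x + (s₀ + ε * t) • v) - (x + s₀ • v) := by
      rw [h2]
      abel
    calc ‖(ε * t) • v‖ = ‖(x + (s₀ + ε * t) • v) - (x + s₀ • v)‖ := by rw [← h5]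
      _ ≤ _ := norm_sub_le _ _
  have h6 := le_abs_self R
  linarith

omit [FiniteDimensional ℝ W] [MeasurableSpace W] [BorelSpace W] in
/-- The count on one line. -/
theorem two_pt {Y : Finset W} (hb : Bornology.IsBounded (poly Y)) {v x : W}
    (hv : ∀ y ∈ Y, inner ℝ y v ≠ (0 : ℝ)) (hv0 : v ≠ 0)
    (hd : ∀ y ∈ Y, ∀ y' ∈ Y, y ≠ y' →
      (1 - inner ℝ x y) / inner ℝ y v ≠ (1 - inner ℝ x y') / (inner ℝ y' v : ℝ))
    (hx : x ∈ cyl (poly Y) v) :
    open Classical in (Y.filter (fun y => x ∈ cyl (fac Y y) v)).card = 2 := by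
  classical
  obtain ⟨⟨s₀, hs₀⟩, hx1, hx2⟩ := hx
  have hmem : ∀ s : ℝ, x + s • v ∈ poly Y ↔
      (∀ y ∈ Y, (0 : ℝ) < inner ℝ y v → s ≤ (1 - inner ℝ x y) / inner ℝ y v) ∧
      (∀ y ∈ Y, (inner ℝ y v : ℝ) < 0 → (1 - inner ℝ x y) / inner ℝ y v ≤ s) := by
    intro s
    constructor
    · intro h
      exact ⟨fun y hy hp => (Two_pos hp s).mp (h y hy), fun y hy hp => (Two_neg hp s).mp (h y hy)⟩
    · rintro ⟨h1, h2⟩ y hy
      rcases lt_or_gt_of_ne (hv y hy) with hp | hp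
      · exact (Two_neg hp s).mpr (h2 y hy hp)
      · exact (Two_pos hp s).mpr (h1 y hy hp)
  have hs := (hmem s₀).mp hs₀
  have hne1 : (Y.filter fun y => (0 : ℝ) < inner ℝ y v).Nonempty := by
    by_contra hcon
    rw [Finset.not_nonempty_iff_eq_empty, Finset.filter_eq_empty_iff] at hcon
    refine Two_unb hb hv0 s₀ 1 (Or.inl rfl) (x := x) fun t ht => (hmem _).mpr ⟨fun y hy hp => absurd hp (hcon hy), fun y hy hp => ?_⟩
    have := hs.2 y hy hp
    linarith
  have hne2 : (Y.filter fun y => (inner ℝ y v : ℝ) < 0).Nonempty := by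
    by_contra hcon
    rw [Finset.not_nonempty_iff_eq_empty, Finset.filter_eq_empty_iff] at hcon
    refine Two_unb hb hv0 s₀ (-1) (Or.inr rfl) (x := x) fun t ht => (hmem _).mpr ⟨fun y hy hp => ?_, fun y hy hp => absurd hp (hcon hy)⟩
    have := hs.1 y hy hp
    linarith
  obtain ⟨a, ha, hamin⟩ := Finset.exists_min_image _ (fun y => (1 - inner ℝ x y) / (inner ℝ y v : ℝ)) hne1
  obtain ⟨b, hb1, hbmax⟩ := Finset.exists_max_image _ (fun y => (1 - inner ℝ x y) / (inner ℝ y v : ℝ)) hne2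
  rw [Finset.mem_filter] at ha hb1
  have hab : a ≠ b := by
    rintro rfl
    exact absurd ha.2 (not_lt.mpr hb1.2.le)
  have hsa := hs.1 a ha.1 ha.2
  have hsb := hs.2 b hb1.1 hb1.2
  have hcyl : ∀ y ∈ Y, x ∈ cyl (fac Y y) v ↔ x + ((1 - inner ℝ x y) / (inner ℝ y v : ℝ)) • v ∈ poly Y := by
    intro y hy
    constructor
    · rintro ⟨⟨s, hs1, hs2⟩, -⟩
      have h1 := (Two_eq (hv y hy) s).mp hs2
      rwa [← h1]
    · intro h
      exact ⟨⟨_, h, (Two_eq (hv y hy) _).mpr rfl⟩, hx1, hx2⟩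
  have hfil : Y.filter (fun y => x ∈ cyl (fac Y y) v) = {a, b} := by
    ext y
    rw [Finset.mem_filter, Finset.mem_insert, Finset.mem_singleton]
    constructor
    · rintro ⟨hy, h⟩
      have h2 := (hmem _).mp ((hcyl y hy).mp h)
      rcases lt_or_gt_of_ne (hv y hy) with hp | hp
      · right
        by_contra hne
        exact hd y hy b hb1.1 hne (le_antisymm (hbmax y (Finset.mem_filter.mpr ⟨hy, hp⟩)) (h2.2 b hb1.1 hb1.2))
      · left
        by_contra hne
        exact hd y hy a ha.1 hne (le_antisymm (h2.1 a ha.1 ha.2) (hamin y (Finset.mem_filter.mpr ⟨hy, hp⟩)))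
    · rintro (rfl | rfl)
      · refine ⟨ha.1, (hcyl _ ha.1).mpr ((hmem _).mpr ⟨fun z hz hp => hamin z (Finset.mem_filter.mpr ⟨hz, hp⟩),
          fun z hz hp => ?_⟩)⟩
        exact (hs.2 z hz hp).trans hsa
      · refine ⟨hb1.1, (hcyl _ hb1.1).mpr ((hmem _).mpr ⟨fun z hz hp => ?_,
          fun z hz hp => hbmax z (Finset.mem_filter.mpr ⟨hz, hp⟩)⟩)⟩
        exact hsb.trans (hs.1 z hz hp)
  rw [hfil, Finset.card_pair hab]

private theorem Two_ae {Y : Finset W} {v : W} (hv : ∀ y ∈ Y, inner ℝ y v ≠ (0 : ℝ)) :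
    ∀ᵐ x : W, ∀ y ∈ Y, ∀ y' ∈ Y, y ≠ y' →
      (1 - inner ℝ x y) / inner ℝ y v ≠ (1 - inner ℝ x y') / (inner ℝ y' v : ℝ) := by
  rw [Filter.eventually_all_finset]
  intro y hy
  rw [Filter.eventually_all_finset]
  intro y' hy'
  by_cases hne : y = y'
  · exact Filter.Eventually.of_forall fun x h => absurd hne h
  have hp := hv y hy
  have hp' := hv y' hy'
  set p : ℝ := inner ℝ y v with hpd
  set p' : ℝ := inner ℝ y' v with hpd'
  have hnull : volume {x : W | inner ℝ x (p' • y - p • y') = p' - p} = 0 := by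
    by_cases hz : p' • y - p • y' = 0
    · have hc : p' - p ≠ 0 := by
        intro hc
        have h1 : p' = p := sub_eq_zero.mp hc
        rw [h1, ← smul_sub] at hz
        rcases smul_eq_zero.mp hz with h2 | h2
        · exact hp h2
        · exact hne (sub_eq_zero.mp h2)
      have h3 : {x : W | inner ℝ x (p' • y - p • y') = p' - p} = ∅ := by
        ext x
        simp only [mem_ofPred_eq, hz, inner_zero_right, mem_empty_iff_false, iff_false]
        exact fun h => hc h.symm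
      rw [h3, measure_empty]
    · exact hyper_null hz _
  rw [ae_iff]
  refine measure_mono_null (fun x hx => ?_) hnull
  rw [mem_ofPred_eq] at hx
  push Not at hx
  have h2 := hx.2
  rw [div_eq_div_iff hp hp'] at h2
  change inner ℝ x (p' • y - p • y') = p' - p
  rw [inner_sub_right, inner_smul_right, inner_smul_right]
  linarith

omit [FiniteDimensional ℝ W] [MeasurableSpace W] [BorelSpace W] in
private theorem Two_sub (Y : Finset W) (y v : W) : cyl (fac Y y) v ⊆ cyl (poly Y) v := by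
  rintro x ⟨⟨s, hs, -⟩, h⟩
  exact ⟨⟨s, hs⟩, h⟩

theorem two_fac {Y : Finset W} (hb : Bornology.IsBounded (poly Y)) {v : W}
    (hv : ∀ y ∈ Y, inner ℝ y v ≠ (0 : ℝ)) (hv0 : v ≠ 0) :
    ∑ y ∈ Y, volume (cyl (fac Y y) v) = 2 * volume (cyl (poly Y) v) := by
  classical
  have hc : IsCompact (poly Y) := isCompact_of_isClosed_isBounded (isClosed_poly Y) hb
  have hcf : ∀ y, IsCompact (fac Y y) := fun y => hc.of_isClosed_subset (isClosed_fac Y y) fun x hx => hx.1
  have hm : ∀ y, MeasurableSet (cyl (fac Y y) v) := fun y => (isClosed_cyl (hcf y) v).measurableSet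
  have hmP : MeasurableSet (cyl (poly Y) v) := (isClosed_cyl hc v).measurableSet
  have h1 : ∀ y ∈ Y, volume (cyl (fac Y y) v) = ∫⁻ x, (cyl (fac Y y) v).indicator (1 : W → ℝ≥0∞) x :=
    fun y _ => (lintegral_indicator_one (hm y)).symm
  rw [Finset.sum_congr rfl h1, ← lintegral_finsetSum _ fun y _ => (measurable_one.indicator (hm y))]
  rw [← lintegral_indicator_one hmP, ← lintegral_const_mul _ (measurable_one.indicator hmP)]
  refine lintegral_congr_ae ?_
  filter_upwards [Two_ae hv] with x hx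
  by_cases hxc : x ∈ cyl (poly Y) v
  · have h2 := two_pt hb hv hv0 hx hxc
    rw [indicator_of_mem hxc]
    have h3 : ∀ y ∈ Y, (cyl (fac Y y) v).indicator (1 : W → ℝ≥0∞) x = if x ∈ cyl (fac Y y) v then 1 else 0 := by
      intro y _
      rw [indicator_apply]
      rfl
    rw [Finset.sum_congr rfl h3, Finset.sum_boole]
    have h4 : ((Y.filter fun y => x ∈ cyl (fac Y y) v).card : ℝ≥0∞) = ((2 : ℕ) : ℝ≥0∞) := by
      exact_mod_cast h2
    rw [h4]
    simp
  · rw [indicator_of_notMem hxc, mul_zero]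
    refine Finset.sum_eq_zero fun y _ => ?_
    exact indicator_of_notMem (fun h => hxc (Two_sub Y y v h)) _

end Pool.Agent.MP_c8a077_gtP.CA
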